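import Pool.Agent.V5helper50.RC.Stm
import Pool.Agent.V5helper18.RS.ASM

/-!
# Project RC, job ASMA
-/

set_option autoImplicit false

open Finset MeasureTheory ProbabilityTheory

namespace Pool.Agent.V5helper50.RC.ASMA

open Pool.Agent.V5helper50.RS (av pr Tk M Model S_LAW S_INT S_RES S_BC S_MOD)
open Pool.Agent.V5helper50.RC
open Pool.Agent.V5helper18.RS (exists_root scale)

lemma R_congr {k : ℕ} {q t t' : ℕ → ℕ} {j n u : ℕ} (h : ∀ x < n, t x = t' x) :
    R k q t j n u = R k q t' j n u := by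
  unfold R
  congr 1
  apply Finset.filter_congr
  intro x hx
  have h1 : ∑ i, A k q t (x i) = ∑ i, A k q t' (x i) := by
    apply Finset.sum_congr rfl
    intro i _
    have h2 := Fintype.mem_piFinset.1 hx i
    rw [A, A, h _ (Finset.mem_range.1 h2)]
  rw [h1]

lemma sq_le {L : ℕ} (hL : 4 ≤ L) : sq L ≤ L := by
  unfold sq
  have h1 : Nat.sqrt L * Nat.sqrt L ≤ L := Nat.sqrt_le L
  by_contra hcon
  have h2 : L ≤ Nat.sqrt L := by omega
  nlinarith

lemma le_sq (L : ℕ) : L ≤ sq L ^ 4 := by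
  unfold sq
  have h1 : L < (Nat.sqrt L + 1) * (Nat.sqrt L + 1) := Nat.lt_succ_sqrt L
  have h2 : (Nat.sqrt L + 1) ^ 2 ≤ (Nat.sqrt L + 1) ^ 4 := Nat.pow_le_pow_right (by omega) (by norm_num)
  nlinarith

/-- if the sphere is not empty then `u` is represented modulo `q 0` -/
lemma rep_of_ne {k K d u : ℕ} {q t : ℕ → ℕ} (hq : Chain K q) (h : N k q t d u ≠ 0) :
    ∃ x : Fin d → ℕ, (∑ i, x i ^ k) % q 0 = u % q 0 := by
  have h1 : {z : Fin d → ℤ | ∑ i, A k q t (z i).natAbs = u}.Nonempty := by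
    by_contra hcon
    rw [Set.not_nonempty_iff_eq_empty] at hcon
    apply h
    unfold N
    rw [hcon, Set.ncard_empty]
  obtain ⟨z, hz⟩ := h1
  refine ⟨fun i => (z i).natAbs, ?_⟩
  have h2 : ∑ i, A k q t (z i).natAbs = u := hz
  rw [← h2]
  unfold A
  rw [sum_add_distrib]
  have h3 : q 0 ∣ ∑ i, q (z i).natAbs * t (z i).natAbs :=
    dvd_sum fun i _ => (hq.dvd (Nat.zero_le _)).mul_right _
  obtain ⟨c, hc⟩ := h3
  rw [hc, Nat.add_mul_mod_self_left]

theorem t_ASMA : S_ASMA := by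
  intro hLAW hBC hNR k K q d q₀ hk hd hq hq0 hU hLift hL hUP hLOW Ω _ μ θ hM
  obtain ⟨CU, hCU, hU⟩ := hU
  obtain ⟨κ, hκ, hL⟩ := hL
  obtain ⟨C, hC, hUP⟩ := hUP
  obtain ⟨C1, L1, hL1, hUP⟩ := hUP 1 one_pos
  obtain ⟨c, hc, C2, L2, hL2, hLOW⟩ := hLOW κ hκ
  have hA := hBC hLAW k Ω μ θ hM (fun L t => ∃ u, L ^ k ≤ u ∧ u < (L + 1) ^ k ∧
      C * ((L : ℝ) ^ d / (L : ℝ) ^ k) *
          ((W k (q (sq L)) (q L) d u : ℝ) / (q (sq L) : ℝ) ^ (d - 1)) +
        1 * ((L : ℝ) ^ d / (L : ℝ) ^ k) < (R k q t d (L + 1) u : ℝ)) C1 L1 (fun L t t' h => by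
          apply exists_congr
          intro u
          rw [R_congr h]) hUP
  have hB := hBC hLAW k Ω μ θ hM (fun L t => ∃ u, L ^ k ≤ u ∧ u < (L + 1) ^ k ∧
        (∀ x ≤ L, κ * (q x : ℝ) ^ (d - 1) ≤ M k (q x) d u) ∧
        (R k q t d (L + 1) u : ℝ) < c * ((L : ℝ) ^ d / (L : ℝ) ^ k)) C2 L2 (fun L t t' h => by
          apply exists_congr
          intro u
          rw [R_congr h]) hLOW
  filter_upwards [hA, hB] with ω h1 h2
  obtain ⟨LA, h1⟩ := h1
  obtain ⟨LB, h2⟩ := h2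
  refine ⟨c / 2 ^ (d - k), 2 ^ d * (C * CU + 1), by positivity, (LA + LB + 4) ^ k,
    fun u hu hne => ?_⟩
  have hu1 : 1 ≤ u := (Nat.one_le_pow _ _ (by omega)).trans hu
  obtain ⟨L, hL1', hLu, huL⟩ := exists_root (k := k) (by omega) hu1
  have hLbig : LA + LB + 4 ≤ L := by
    by_contra h0
    have h3 : (L + 1) ^ k ≤ (LA + LB + 4) ^ k := Nat.pow_le_pow_left (by omega) k
    omega
  have hup := h1 L (by omega)
  have hlo := h2 L (by omega)
  push Not at hup hlo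
  have hup := hup u hLu huL
  have hrep := rep_of_ne hq hne
  have hlo := hlo u hLu huL (fun x _ => by
    obtain ⟨y, hy⟩ := hLift (q 0) (q x) u (hq.pos x) hq0 (hq.dvd (Nat.zero_le _)) hrep
    exact hL (q x) u (hq.pos x) ⟨y, hy⟩)
  obtain ⟨hN1, hN2⟩ := hNR k q (fun x => θ x ω) d L u (by omega) hLu huL
  obtain ⟨hs1, hs2⟩ := scale (by omega) (by omega : k + 1 ≤ d) hL1' hLu huL
  have hN1' : (R k q (fun x => θ x ω) d (L + 1) u : ℝ) ≤ N k q (fun x => θ x ω) d u := by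
    exact_mod_cast hN1
  have hN2' : (N k q (fun x => θ x ω) d u : ℝ) ≤
      2 ^ d * (R k q (fun x => θ x ω) d (L + 1) u : ℝ) := by
    exact_mod_cast hN2
  have hW : (W k (q (sq L)) (q L) d u : ℝ) / (q (sq L) : ℝ) ^ (d - 1) ≤ CU := by
    have h5 : (0 : ℝ) < (q (sq L) : ℝ) ^ (d - 1) := by
      have : (0 : ℝ) < q (sq L) := by exact_mod_cast hq.pos _
      positivity
    rw [div_le_iff₀ h5]
    exact hU _ _ u (hq.pos _) (hq.two (sq_le (by omega)) (le_sq L)).1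
  set Y := (L : ℝ) ^ d / (L : ℝ) ^ k with hY
  set X := (u : ℝ) ^ ((d : ℝ) / k - 1) with hX
  have hY0 : 0 ≤ Y := by positivity
  have hX0 : 0 ≤ X := by positivity
  constructor
  · refine le_trans ?_ (hlo.trans hN1')
    have h3 : c / 2 ^ (d - k) * X ≤ c / 2 ^ (d - k) * (2 ^ (d - k) * Y) :=
      mul_le_mul_of_nonneg_left hs2 (by positivity)
    refine h3.trans (le_of_eq ?_)
    have h4 : (2 : ℝ) ^ (d - k) ≠ 0 := by positivity
    field_simp
  · refine hN2'.trans ?_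
    have h6 : (R k q (fun x => θ x ω) d (L + 1) u : ℝ) ≤ (C * CU + 1) * X := by
      refine hup.trans ?_
      have h7 : C * Y * ((W k (q (sq L)) (q L) d u : ℝ) / (q (sq L) : ℝ) ^ (d - 1)) ≤ C * Y * CU :=
        mul_le_mul_of_nonneg_left hW (by positivity)
      have h8 : C * Y * CU + 1 * Y = (C * CU + 1) * Y := by ring
      have h9 : (C * CU + 1) * Y ≤ (C * CU + 1) * X :=
        mul_le_mul_of_nonneg_left hs1 (by positivity)
      linarith
    calc 2 ^ d * (R k q (fun x => θ x ω) d (L + 1) u : ℝ) ≤ 2 ^ d * ((C * CU + 1) * X) :=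
          mul_le_mul_of_nonneg_left h6 (by positivity)
      _ = 2 ^ d * (C * CU + 1) * X := by ring

end Pool.Agent.V5helper50.RC.ASMA
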