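import Pool.Agent.V5helper50.RC.Stm

/-!
# Project RC: assembly with the jobs as hypotheses
-/

set_option autoImplicit false

open Finset MeasureTheory ProbabilityTheory

namespace Pool.Agent.V5helper50.RC

open Pool.Agent.V5helper50.RS (av pr Tk M Model S_LAW S_INT S_RES S_BC S_MOD)
open Pool.Agent.V5helper16.CT (LocalBound)

theorem fin_of (hLAW : S_LAW) (hBC : S_BC) (hINT : S_INT) (hRES : S_RES) (hCHU : S_CHU2)
    (hCHL : S_CHL2) (hREC : S_REC2) (hMA : S_MA2) (hMB : S_MB2) (hMC : S_MC2) (hBND : S_BND2)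
    (hUP : S_UP2) (hLOWM : S_LOWM2) (hLOW : S_LOW2) (hNR : S_NR2) (hLOCU : S_LOCU)
    (hLOCB : S_LOCB) (hLIFT : S_LIFT) (hLOCL : S_LOCL) (hLOWD : S_LOWD) (hASMA : S_ASMA)
    (hASMB : S_ASMB) (k : ℕ) (hk : 3 ≤ k) : ∃ q₀ : ℕ, 1 ≤ q₀ ∧ ∀ (K : ℕ) (q : ℕ → ℕ), Chain K q →
      q₀ ∣ q 0 → (∀ m : ℕ, 1 ≤ m → ∃ x, m ∣ q x) →
      ∀ (Ω : Type) [MeasurableSpace Ω] (μ : Measure Ω) (θ : ℕ → Ω → ℕ), Model k μ θ →
        ∀ᵐ ω ∂μ, ∀ d : ℕ, 1 ≤ d → (Order k q (fun x => θ x ω) d ↔ LocalBound k d) := by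
  obtain ⟨q₀, hq₀, hlift⟩ := hLIFT k hk
  refine ⟨q₀, hq₀, fun K q hq hq0 hall Ω _ μ θ hθ => ?_⟩
  have hMB' := hMB hINT hRES
  have hMC' := hMC hINT
  have hBND' := hBND hCHU hREC hMA hMC'
  have hUP' := hUP hCHU hREC hMA hMB' hBND'
  have hLOW' := hLOW hCHL (hLOWM hRES) hBND'
  rw [ae_all_iff]
  intro d
  by_cases hd1 : 1 ≤ d
  swap
  · exact Filter.Eventually.of_forall fun ω h => absurd h hd1
  by_cases hd : k + 2 ≤ d
  swap
  · refine Filter.Eventually.of_forall fun ω _ => ?_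
    refine iff_of_false (hLOWD k K q d hk hd1 (by omega) hq hall _ (fun x => hθ.bound x ω)) ?_
    exact fun h => hd h.1
  by_cases hL : LocalBound k d
  · filter_upwards [hASMA hLAW hBC hNR k K q d q₀ hk hd hq hq0 (hLOCU k d hk hd) (hlift d hL)
      (hLOCL k d hk hL) (hUP' k K q d (by omega) (by omega) hq)
      (hLOW' k K q d (by omega) (by omega) hq) Ω μ θ hθ] with ω hω _
    exact iff_of_true hω hL
  · filter_upwards [hASMB hLAW hBC hNR k K q d hk hd hq hall (hLOCB k d hk hd hL)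
      (hUP' k K q d (by omega) (by omega) hq) Ω μ θ hθ] with ω hω _
    exact iff_of_false hω hL

end Pool.Agent.V5helper50.RC
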