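import Pool.Agent.V5helper50.RC.Stm

/-! Project RC, job MB2, by helper5 (copy of `Pool.Agent.V5helper5.RC.MB2` without the local
notation) -/

set_option autoImplicit false

open Finset

namespace Pool.Agent.V5helper50.RC.MB2

open Pool.Agent.V5helper50.RC hiding sq
open Pool.Agent.V5helper50.RS (Tk Tk_pos S_INT S_RES)


theorem large (K D : ℕ) : ∃ L₀ : ℕ, ∀ L ≥ L₀, D * (K + Nat.log 2 (L + 1)) ≤ Pool.Agent.V5helper50.RC.sq L := by
  have h1 := tendsto_pow_const_div_const_pow_of_one_lt 2 (r := (2 : ℝ)) (by norm_num)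
  have h2 : (0 : ℝ) < 1 / (4 * (D : ℝ) ^ 2 + 1) := by positivity
  obtain ⟨l₀, hl₀⟩ := Filter.eventually_atTop.1 (h1.eventually (gt_mem_nhds h2))
  refine ⟨2 ^ (max l₀ K), fun L hL => ?_⟩
  have h3 : max l₀ K ≤ Nat.log 2 (L + 1) := Nat.le_log_of_pow_le (by norm_num) (by omega)
  generalize hl : Nat.log 2 (L + 1) = l at h3 ⊢
  have h4 := hl₀ l (le_trans (le_max_left _ _) h3)
  have h5 : K ≤ l := le_trans (le_max_right _ _) h3
  have h6 : 2 ^ l ≤ L + 1 := by
    rw [← hl]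
    exact Nat.pow_log_le_self 2 (by omega)
  have h7 : (4 * (D : ℝ) ^ 2 + 1) * (l : ℝ) ^ 2 ≤ 2 ^ l := by
    rw [div_lt_div_iff₀ (by positivity) (by positivity)] at h4
    linarith
  have h8 : (D * (K + l)) ^ 2 ≤ L + 1 := by
    have h9 : (D * (K + l)) ^ 2 ≤ 4 * D ^ 2 * l ^ 2 := by
      calc (D * (K + l)) ^ 2 ≤ (D * (l + l)) ^ 2 := by gcongr
        _ = 4 * D ^ 2 * l ^ 2 := by ring
    have h10 : (4 * D ^ 2 + 1) * l ^ 2 ≤ 2 ^ l := by exact_mod_cast h7
    nlinarith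
  exact (Nat.le_sqrt'.2 h8).trans (Nat.sqrt_succ_le_succ_sqrt L)

theorem Tk_le (k x : ℕ) : Tk k x ≤ 1 + 4 * k * x ^ (k - 1) :=
  max_le (Nat.le_add_right _ _) (Nat.le_add_left _ _)

theorem Tk_eq (k x : ℕ) (hk : 1 ≤ k) (hx : 1 ≤ x) : Tk k x = 4 * k * x ^ (k - 1) := by
  refine max_eq_right ?_
  have := Nat.one_le_pow (k - 1) x hx
  nlinarith

theorem range_of_mem {k K : ℕ} {q : ℕ → ℕ} {j u i x L : ℕ} (hk : 2 ≤ k) (hq : Chain K q)
    (hi : 1 ≤ i) (hij : i ≤ j)
    (y : Fin (j - i) → ℕ) (hy : ∀ l, y l < x) (h1 : ∑ l, y l ^ k + i * x ^ k ≤ u)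
    (h2 : u < ∑ l, y l ^ k + i * x ^ k + j * q x * Tk k x) (hLu : L ^ k ≤ u)
    (huL : u < (L + 1) ^ k) (hH1 : 4 * k * q L ≤ Pool.Agent.V5helper50.RC.sq L) (hH2 : 3 * j + 2 ≤ Pool.Agent.V5helper50.RC.sq L) :
    Pool.Agent.V5helper50.RC.sq L ≤ x ∧ x ≤ L ∧ L ^ k ≤ j * L * Tk k x := by
  have hxL : x ≤ L := by
    by_contra hcon
    push Not at hcon
    have h3 : (L + 1) ^ k ≤ x ^ k := Nat.pow_le_pow_left hcon k
    have h4 : x ^ k ≤ i * x ^ k := Nat.le_mul_of_pos_left _ hi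
    omega
  have hqx : q x ≤ q L := hq.mono hxL
  have hsum : ∑ l, y l ^ k + i * x ^ k ≤ j * x ^ k := by
    have h3 : ∑ l, y l ^ k ≤ (j - i) * x ^ k := by
      calc ∑ l, y l ^ k ≤ ∑ _l : Fin (j - i), x ^ k :=
            Finset.sum_le_sum fun l _ => Nat.pow_le_pow_left (hy l).le k
        _ = (j - i) * x ^ k := by simp
    calc ∑ l, y l ^ k + i * x ^ k ≤ (j - i) * x ^ k + i * x ^ k := Nat.add_le_add_right h3 _
      _ = j * x ^ k := by rw [← add_mul, Nat.sub_add_cancel hij]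
  obtain ⟨k', rfl⟩ : ∃ k', k = k' + 1 := ⟨k - 1, by omega⟩
  have hs1 : 1 ≤ Pool.Agent.V5helper50.RC.sq L := by unfold Pool.Agent.V5helper50.RC.sq; omega
  have hsx : Pool.Agent.V5helper50.RC.sq L ≤ x := by
    by_contra hcon
    push Not at hcon
    have h3 : x ^ (k' + 1) ≤ Pool.Agent.V5helper50.RC.sq L ^ (k' + 1) := Nat.pow_le_pow_left hcon.le _
    have h4 : x ^ k' ≤ Pool.Agent.V5helper50.RC.sq L ^ k' := Nat.pow_le_pow_left hcon.le _
    have h5 : q x * Tk (k' + 1) x ≤ 2 * Pool.Agent.V5helper50.RC.sq L ^ (k' + 1) := by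
      calc q x * Tk (k' + 1) x ≤ q L * (1 + 4 * (k' + 1) * x ^ k') :=
            Nat.mul_le_mul hqx (Tk_le _ _)
        _ ≤ q L * (1 + 4 * (k' + 1) * Pool.Agent.V5helper50.RC.sq L ^ k') := by gcongr
        _ = q L + (4 * (k' + 1) * q L) * Pool.Agent.V5helper50.RC.sq L ^ k' := by ring
        _ ≤ Pool.Agent.V5helper50.RC.sq L ^ (k' + 1) + Pool.Agent.V5helper50.RC.sq L * Pool.Agent.V5helper50.RC.sq L ^ k' := by
            refine Nat.add_le_add ?_ (Nat.mul_le_mul_right _ hH1)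
            calc q L ≤ 4 * (k' + 1) * q L := Nat.le_mul_of_pos_left _ (by omega)
              _ ≤ Pool.Agent.V5helper50.RC.sq L := hH1
              _ ≤ Pool.Agent.V5helper50.RC.sq L ^ (k' + 1) := Nat.le_self_pow (by omega) _
        _ = 2 * Pool.Agent.V5helper50.RC.sq L ^ (k' + 1) := by ring
    have h6 : 3 * j * Pool.Agent.V5helper50.RC.sq L ≤ L := by
      have h7 : Nat.sqrt L * Nat.sqrt L ≤ L := Nat.sqrt_le L
      have h8 : Pool.Agent.V5helper50.RC.sq L = Nat.sqrt L + 1 := rfl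
      obtain ⟨r, hr⟩ : ∃ r, Nat.sqrt L = r + 1 := ⟨Nat.sqrt L - 1, by omega⟩
      rw [h8, hr]
      rw [hr] at h7
      have h9 : 3 * j ≤ r := by omega
      calc 3 * j * (r + 1 + 1) ≤ r * (r + 1 + 1) := Nat.mul_le_mul_right _ h9
        _ ≤ (r + 1) * (r + 1) := by nlinarith
        _ ≤ L := h7
    have h7 : 3 * j * Pool.Agent.V5helper50.RC.sq L ^ (k' + 1) ≤ L ^ (k' + 1) := by
      calc 3 * j * Pool.Agent.V5helper50.RC.sq L ^ (k' + 1) ≤ (3 * j) ^ (k' + 1) * Pool.Agent.V5helper50.RC.sq L ^ (k' + 1) :=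
            Nat.mul_le_mul_right _ (Nat.le_self_pow (by omega) _)
        _ = (3 * j * Pool.Agent.V5helper50.RC.sq L) ^ (k' + 1) := (mul_pow _ _ _).symm
        _ ≤ L ^ (k' + 1) := Nat.pow_le_pow_left h6 _
    have h8 : j * q x * Tk (k' + 1) x ≤ j * (2 * Pool.Agent.V5helper50.RC.sq L ^ (k' + 1)) := by
      rw [mul_assoc]
      exact Nat.mul_le_mul_left _ h5
    have h9 : j * x ^ (k' + 1) ≤ j * Pool.Agent.V5helper50.RC.sq L ^ (k' + 1) := Nat.mul_le_mul_left _ h3
    have h10 : 3 * j * Pool.Agent.V5helper50.RC.sq L ^ (k' + 1) = j * Pool.Agent.V5helper50.RC.sq L ^ (k' + 1) + j * (2 * Pool.Agent.V5helper50.RC.sq L ^ (k' + 1)) := by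
      ring
    omega
  have hx1 : 1 ≤ x := hs1.trans hsx
  refine ⟨hsx, hxL, ?_⟩
  have hT := Tk_eq (k' + 1) x (by omega) hx1
  rw [Nat.add_sub_cancel] at hT
  have hQT : q x * Tk (k' + 1) x ≤ x ^ (k' + 1) := by
    rw [hT]
    calc q x * (4 * (k' + 1) * x ^ k') = (4 * (k' + 1) * q x) * x ^ k' := by ring
      _ ≤ x * x ^ k' := by
          refine Nat.mul_le_mul_right _ ?_
          exact (Nat.mul_le_mul_left _ hqx).trans (hH1.trans hsx)
      _ = x ^ (k' + 1) := by ring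
  have h3 : j * q x * Tk (k' + 1) x ≤ j * x ^ (k' + 1) := by
    rw [mul_assoc]
    exact Nat.mul_le_mul_left _ hQT
  have h4 : L ^ (k' + 1) ≤ 2 * (j * x ^ (k' + 1)) := by omega
  calc L ^ (k' + 1) ≤ 2 * (j * x ^ (k' + 1)) := h4
    _ = j * x * (2 * x ^ k') := by ring
    _ ≤ j * L * (4 * (k' + 1) * x ^ k') := by
        refine Nat.mul_le_mul (Nat.mul_le_mul_left _ hxL) (Nat.mul_le_mul_right _ (by omega))
    _ = j * L * Tk (k' + 1) x := by rw [hT]

theorem A_mod {K k : ℕ} {q : ℕ → ℕ} (hq : Chain K q) (t : ℕ → ℕ) {s y : ℕ} (h : s ≤ y) :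
    A k q t y % q s = y ^ k % q s := by
  unfold A
  obtain ⟨c, hc⟩ := hq.dvd h
  rw [hc, mul_assoc, Nat.add_mul_mod_self_left]

theorem sum_A_mod {K k : ℕ} {q : ℕ → ℕ} (hq : Chain K q) (t : ℕ → ℕ) {s a : ℕ} (y : Fin a → ℕ)
    (h : ∀ l, s ≤ y l) (c : ℕ) :
    (∑ l, A k q t (y l) + c) % q s = (∑ l, y l ^ k + c) % q s := by
  rw [Nat.add_mod, Finset.sum_nat_mod, Nat.add_mod (∑ l, y l ^ k),
    Finset.sum_nat_mod (s := univ) (f := fun l => y l ^ k)]
  congr 3
  exact Finset.sum_congr rfl fun l _ => A_mod hq t (h l)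

theorem pow_sum_mod (k Q : ℕ) {j : ℕ} (y : Fin j → ℕ) (c : ℕ) :
    (∑ l, (y l % Q) ^ k + c) % Q = (∑ l, y l ^ k + c) % Q := by
  rw [Nat.add_mod, Finset.sum_nat_mod, Nat.add_mod (∑ l, y l ^ k),
    Finset.sum_nat_mod (s := univ) (f := fun l => y l ^ k)]
  congr 3
  exact Finset.sum_congr rfl fun l _ => (Nat.pow_mod _ _ _).symm

theorem G_mod (k Q Q' u : ℕ) {j : ℕ} (y : Fin j → ℕ) :
    G k Q Q' u (fun l => y l % Q) = G k Q Q' u y := by
  unfold G
  simp only [pow_sum_mod]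

/-- fibering over the residues -/
theorem fib (hINT : S_INT) {k Q j i : ℕ} (n Y a u : ℕ) (hk : 2 ≤ k) (hQ : 1 ≤ Q) (hj : 1 ≤ j)
    (hi : 1 ≤ i) :
    ((range n).filter (fun x => (1 ≤ x ∧ i * x ^ k ≤ Y ∧ Y < i * x ^ k + j * Q * Tk k x) ∧
      (a + i * x ^ k) % Q = u % Q)).card ≤
    (4 * j + 1) * ((range Q).filter (fun r => (a + i * r ^ k) % Q = u % Q)).card := by
  classical
  have h2 : ∀ x ∈ (range n).filter (fun x => (1 ≤ x ∧ i * x ^ k ≤ Y ∧
      Y < i * x ^ k + j * Q * Tk k x) ∧ (a + i * x ^ k) % Q = u % Q),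
      x % Q ∈ (range Q).filter (fun r => (a + i * r ^ k) % Q = u % Q) := by
    intro x hx
    simp only [Finset.mem_filter, Finset.mem_range] at hx ⊢
    refine ⟨Nat.mod_lt _ hQ, ?_⟩
    rw [← hx.2.2, Nat.add_mod, Nat.mul_mod, ← Nat.pow_mod, ← Nat.mul_mod, ← Nat.add_mod]
  rw [Finset.card_eq_sum_card_fiberwise h2]
  have h3 : (4 * j + 1) * ((range Q).filter (fun r => (a + i * r ^ k) % Q = u % Q)).card =
      ∑ _r ∈ (range Q).filter (fun r => (a + i * r ^ k) % Q = u % Q), (4 * j + 1) := by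
    rw [Finset.sum_const, smul_eq_mul, mul_comm]
  rw [h3]
  refine Finset.sum_le_sum fun r _ => ?_
  refine (Finset.card_le_card ?_).trans (hINT k Q j i Y n r hk hQ hj hi)
  intro x hx
  simp only [Finset.mem_filter, Finset.mem_range] at hx ⊢
  exact ⟨hx.1.1, hx.1.2.1.1, hx.1.2.1.2.1, hx.1.2.1.2.2, hx.2⟩

theorem fib' (hINT : S_INT) {k Q j i : ℕ} (n Y : ℕ) (hk : 2 ≤ k) (hQ : 1 ≤ Q) (hj : 1 ≤ j)
    (hi : 1 ≤ i) :
    ((range n).filter (fun x => 1 ≤ x ∧ i * x ^ k ≤ Y ∧ Y < i * x ^ k + j * Q * Tk k x)).card ≤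
    (4 * j + 1) * Q := by
  classical
  have h2 : ∀ x ∈ (range n).filter (fun x => 1 ≤ x ∧ i * x ^ k ≤ Y ∧
      Y < i * x ^ k + j * Q * Tk k x), x % Q ∈ range Q := by
    intro x hx
    simp only [Finset.mem_range]
    exact Nat.mod_lt _ hQ
  rw [Finset.card_eq_sum_card_fiberwise h2]
  calc ∑ r ∈ range Q, _ ≤ ∑ _r ∈ range Q, (4 * j + 1) := by
        refine Finset.sum_le_sum fun r _ => ?_
        refine (Finset.card_le_card ?_).trans (hINT k Q j i Y n r hk hQ hj hi)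
        intro x hx
        simp only [Finset.mem_filter, Finset.mem_range] at hx ⊢
        exact ⟨hx.1.1, hx.1.2.1, hx.1.2.2.1, hx.1.2.2.2, hx.2⟩
    _ = (4 * j + 1) * Q := by
        rw [Finset.sum_const, card_range, smul_eq_mul, mul_comm]

theorem supS (k q q' u a : ℕ) (b : ℕ) (hq' : 1 ≤ q') (hdvd : q ∣ q')
    (hab : ∀ c, (a + c) % q = (b + c) % q) :
    ((range q').filter (fun r => (a + r ^ k) % q' = u % q')).card ≤
      ((range q').filter (fun z => (b + z) % q = u % q)).sup (fun z => S k q' z) := by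
  classical
  set z := (u + (q' - 1) * a) % q' with hz
  have h1 : a + z ≡ u [MOD q'] := by
    have h2 : a + z ≡ a + (u + (q' - 1) * a) [MOD q'] :=
      Nat.ModEq.add_left _ (Nat.mod_modEq _ _)
    refine h2.trans ?_
    have h3 : a + (u + (q' - 1) * a) = u + q' * a := by
      obtain ⟨r, rfl⟩ : ∃ r, q' = r + 1 := ⟨q' - 1, by omega⟩
      rw [Nat.add_sub_cancel]
      ring
    rw [h3]
    show (u + q' * a) % q' = u % q'
    rw [Nat.add_mul_mod_self_left]
  have h4 : z ∈ (range q').filter (fun z => (b + z) % q = u % q) := by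
    rw [Finset.mem_filter, Finset.mem_range]
    refine ⟨Nat.mod_lt _ hq', ?_⟩
    rw [← hab]
    exact h1.of_dvd hdvd
  refine le_trans ?_ (Finset.le_sup (f := fun z => S k q' z) h4)
  unfold S
  refine Finset.card_le_card fun r hr => ?_
  rw [Finset.mem_filter] at hr ⊢
  refine ⟨hr.1, ?_⟩
  have h5 : a + r ^ k ≡ a + z [MOD q'] := Nat.ModEq.trans hr.2 h1.symm
  exact Nat.ModEq.add_left_cancel' a h5

/-- tuples with a small coordinate -/
theorem bad (a s N : ℕ) :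
    ((Fintype.piFinset (fun _ : Fin a => range N)).filter (fun y => ∃ l, y l < s)).card * N ≤
      a * s * N ^ a := by
  classical
  have h1 : (Fintype.piFinset (fun _ : Fin a => range N)).filter (fun y => ∃ l, y l < s) ⊆
      Finset.univ.biUnion (fun l : Fin a =>
        Fintype.piFinset (fun i : Fin a => if i = l then range s else range N)) := by
    intro y hy
    rw [Finset.mem_filter, Fintype.mem_piFinset] at hy
    obtain ⟨hy1, l, hl⟩ := hy
    rw [Finset.mem_biUnion]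
    refine ⟨l, Finset.mem_univ _, ?_⟩
    rw [Fintype.mem_piFinset]
    intro i
    by_cases h : i = l
    · subst h
      rw [if_pos rfl, Finset.mem_range]
      exact hl
    · rw [if_neg h]
      exact hy1 i
  have h2 : ∀ l : Fin a, (Fintype.piFinset
      (fun i : Fin a => if i = l then range s else range N)).card * N = s * N ^ a := by
    intro l
    rw [Fintype.card_piFinset]
    have h3 : N = ∏ i : Fin a, (if i = l then N else 1) := by
      rw [Finset.prod_ite_eq' univ l (fun _ => N), if_pos (Finset.mem_univ _)]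
    have h4 : s = ∏ i : Fin a, (if i = l then s else 1) := by
      rw [Finset.prod_ite_eq' univ l (fun _ => s), if_pos (Finset.mem_univ _)]
    have h5 : N ^ a = ∏ _i : Fin a, N := by simp
    calc (∏ i : Fin a, (if i = l then range s else range N).card) * N
        = (∏ i : Fin a, (if i = l then range s else range N).card) *
          ∏ i : Fin a, (if i = l then N else 1) := by rw [← h3]
      _ = (∏ i : Fin a, (if i = l then s else 1)) * ∏ _i : Fin a, N := by
          rw [← Finset.prod_mul_distrib, ← Finset.prod_mul_distrib]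
          refine Finset.prod_congr rfl fun i _ => ?_
          split_ifs <;> simp
      _ = s * N ^ a := by rw [← h4, ← h5]
  calc ((Fintype.piFinset (fun _ : Fin a => range N)).filter (fun y => ∃ l, y l < s)).card * N
      ≤ (∑ l : Fin a, (Fintype.piFinset
          (fun i : Fin a => if i = l then range s else range N)).card) * N :=
        Nat.mul_le_mul_right _ ((Finset.card_le_card h1).trans Finset.card_biUnion_le)
    _ = ∑ l : Fin a, s * N ^ a := by
        rw [Finset.sum_mul]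
        exact Finset.sum_congr rfl fun l _ => h2 l
    _ = a * s * N ^ a := by
        rw [Finset.sum_const, Finset.card_univ, Fintype.card_fin, smul_eq_mul]
        ring

/-- the numbers `x` for a given `y`, `i = 1` -/
theorem cnt_one (hINT : S_INT) {k K : ℕ} {q : ℕ → ℕ} {j u L : ℕ} (n : ℕ) (hk : 2 ≤ k)
    (hq : Chain K q) (hj : 1 ≤ j) (t : ℕ → ℕ) (hL4 : L ≤ Pool.Agent.V5helper50.RC.sq L ^ 4) (hsL : Pool.Agent.V5helper50.RC.sq L ≤ L) {a : ℕ}
    (y : Fin a → ℕ) (hy : ∀ l, Pool.Agent.V5helper50.RC.sq L ≤ y l) (Y : ℕ) :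
    ((range n).filter (fun x => (Pool.Agent.V5helper50.RC.sq L ≤ x ∧ x ≤ L ∧ 1 * x ^ k ≤ Y ∧
      Y < 1 * x ^ k + j * q x * Tk k x) ∧ (∑ l, A k q t (y l) + 1 * x ^ k) % q x = u % q x)).card ≤
    (4 * j + 1) * G k (q (Pool.Agent.V5helper50.RC.sq L)) (q L) u y := by
  classical
  have hs1 : 1 ≤ Pool.Agent.V5helper50.RC.sq L := by unfold Pool.Agent.V5helper50.RC.sq; omega
  have h2 : (range n).filter (fun x => (Pool.Agent.V5helper50.RC.sq L ≤ x ∧ x ≤ L ∧ 1 * x ^ k ≤ Y ∧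
      Y < 1 * x ^ k + j * q x * Tk k x) ∧ (∑ l, A k q t (y l) + 1 * x ^ k) % q x = u % q x) ⊆
      (range n).filter (fun x => (1 ≤ x ∧ 1 * x ^ k ≤ Y ∧
        Y < 1 * x ^ k + j * q (Pool.Agent.V5helper50.RC.sq L) * Tk k x) ∧
        (∑ l, A k q t (y l) + 1 * x ^ k) % q (Pool.Agent.V5helper50.RC.sq L) = u % q (Pool.Agent.V5helper50.RC.sq L)) ∪
      (range n).filter (fun x => (1 ≤ x ∧ 1 * x ^ k ≤ Y ∧
        Y < 1 * x ^ k + j * q L * Tk k x) ∧
        (∑ l, A k q t (y l) + 1 * x ^ k) % q L = u % q L) := by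
    intro x hx
    rw [Finset.mem_filter] at hx
    obtain ⟨hx0, ⟨hx1, hx2, hx3, hx4⟩, hx5⟩ := hx
    rw [Finset.mem_union, Finset.mem_filter, Finset.mem_filter]
    rcases (hq.two hsL hL4).2 x hx1 hx2 with h | h
    · left
      rw [h] at hx4 hx5
      exact ⟨hx0, ⟨hs1.trans hx1, hx3, hx4⟩, hx5⟩
    · right
      rw [h] at hx4 hx5
      exact ⟨hx0, ⟨hs1.trans hx1, hx3, hx4⟩, hx5⟩
  refine (Finset.card_le_card h2).trans ((Finset.card_union_le _ _).trans ?_)
  have h3 := fib hINT (i := 1) n Y (∑ l, A k q t (y l)) u hk (hq.pos (Pool.Agent.V5helper50.RC.sq L)) hj le_rfl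
  have h4 := fib hINT (i := 1) n Y (∑ l, A k q t (y l)) u hk (hq.pos L) hj le_rfl
  have h5 := supS k (q (Pool.Agent.V5helper50.RC.sq L)) (q L) u (∑ l, A k q t (y l)) (∑ l, y l ^ k) (hq.pos L)
    (hq.dvd hsL) (sum_A_mod hq t y hy)
  have h6 : ((range (q (Pool.Agent.V5helper50.RC.sq L))).filter (fun r => (∑ l, A k q t (y l) + 1 * r ^ k) % q (Pool.Agent.V5helper50.RC.sq L) =
      u % q (Pool.Agent.V5helper50.RC.sq L))).card =
      ((range (q (Pool.Agent.V5helper50.RC.sq L))).filter (fun r => (∑ l, y l ^ k + r ^ k) % q (Pool.Agent.V5helper50.RC.sq L) =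
      u % q (Pool.Agent.V5helper50.RC.sq L))).card := by
    congr 1
    refine Finset.filter_congr fun r _ => ?_
    rw [sum_A_mod hq t y hy, one_mul]
  rw [h6] at h3
  simp only [one_mul] at h4 h5
  unfold G
  rw [mul_add]
  refine Nat.add_le_add h3 ?_
  refine le_trans (le_of_eq ?_) (h4.trans (Nat.mul_le_mul_left _ h5))
  simp only [one_mul]

/-- counting the pairs `(x, y)` -/
theorem sum_w_le (hINT : S_INT) {k K : ℕ} {q : ℕ → ℕ} {j u i L : ℕ} (n : ℕ) (hk : 2 ≤ k)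
    (hq : Chain K q) (hi : 1 ≤ i) (hij : i ≤ j) (hLu : L ^ k ≤ u) (huL : u < (L + 1) ^ k)
    (hH1 : 4 * k * q L ≤ Pool.Agent.V5helper50.RC.sq L) (hH2 : 3 * j + 2 ≤ Pool.Agent.V5helper50.RC.sq L) (t : ℕ → ℕ) :
    ∑ x ∈ range n, w k q t j u i x ≤ (L + 1) ^ (j - i) * ((4 * j + 1) * q L) := by
  classical
  have hs1 : 1 ≤ Pool.Agent.V5helper50.RC.sq L := by unfold Pool.Agent.V5helper50.RC.sq; omega
  have h1 : ∀ x, w k q t j u i x ≤
      ∑ y ∈ Fintype.piFinset (fun _ : Fin (j - i) => range (L + 1)),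
        if (1 ≤ x ∧ i * x ^ k ≤ u - ∑ l, y l ^ k ∧
          u - ∑ l, y l ^ k < i * x ^ k + j * q L * Tk k x) then 1 else 0 := by
    intro x
    rw [← Finset.card_filter]
    unfold w
    refine Finset.card_le_card fun y hy => ?_
    simp only [Finset.mem_filter, Fintype.mem_piFinset, Finset.mem_range] at hy ⊢
    obtain ⟨hy1, hy2, hy3, hy4⟩ := hy
    obtain ⟨g1, g2, -⟩ := range_of_mem hk hq hi hij y hy1 hy3 hy4 hLu huL hH1 hH2
    have g3 : j * q x * Tk k x ≤ j * q L * Tk k x :=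
      Nat.mul_le_mul_right _ (Nat.mul_le_mul_left _ (hq.mono g2))
    refine ⟨fun l => by have := hy1 l; omega, hs1.trans g1, by omega, by omega⟩
  refine (Finset.sum_le_sum fun x _ => h1 x).trans ?_
  rw [Finset.sum_comm]
  calc ∑ y ∈ Fintype.piFinset (fun _ : Fin (j - i) => range (L + 1)), _
      ≤ ∑ y ∈ Fintype.piFinset (fun _ : Fin (j - i) => range (L + 1)), (4 * j + 1) * q L := by
        refine Finset.sum_le_sum fun y _ => ?_
        rw [← Finset.card_filter]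
        exact fib' hINT n _ hk (hq.pos L) (hi.trans hij) hi
    _ = (L + 1) ^ (j - i) * ((4 * j + 1) * q L) := by
        rw [Finset.sum_const, Fintype.card_piFinset, smul_eq_mul]
        simp

/-- counting the pairs `(x, y)`, `i = 1` -/
theorem sum_w_one (hINT : S_INT) {k K : ℕ} {q : ℕ → ℕ} {j u L : ℕ} (n : ℕ) (hk : 2 ≤ k)
    (hq : Chain K q) (hj : 1 ≤ j) (hLu : L ^ k ≤ u) (huL : u < (L + 1) ^ k)
    (hL4 : L ≤ Pool.Agent.V5helper50.RC.sq L ^ 4) (hsL : Pool.Agent.V5helper50.RC.sq L ≤ L)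
    (hH1 : 4 * k * q L ≤ Pool.Agent.V5helper50.RC.sq L) (hH2 : 3 * j + 2 ≤ Pool.Agent.V5helper50.RC.sq L) (t : ℕ → ℕ) :
    ∑ x ∈ range n, w k q t j u 1 x ≤
      (4 * j + 1) * (∑ y ∈ Fintype.piFinset (fun _ : Fin (j - 1) => range (L + 1)),
        G k (q (Pool.Agent.V5helper50.RC.sq L)) (q L) u y) +
      ((Fintype.piFinset (fun _ : Fin (j - 1) => range (L + 1))).filter
        (fun y => ∃ l, y l < Pool.Agent.V5helper50.RC.sq L)).card * ((4 * j + 1) * q L) := by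
  classical
  have hs1 : 1 ≤ Pool.Agent.V5helper50.RC.sq L := by unfold Pool.Agent.V5helper50.RC.sq; omega
  have h1 : ∀ x, w k q t j u 1 x ≤
      ∑ y ∈ Fintype.piFinset (fun _ : Fin (j - 1) => range (L + 1)),
        if ((Pool.Agent.V5helper50.RC.sq L ≤ x ∧ x ≤ L ∧ 1 * x ^ k ≤ u - ∑ l, y l ^ k ∧
          u - ∑ l, y l ^ k < 1 * x ^ k + j * q x * Tk k x) ∧
          (∑ l, A k q t (y l) + 1 * x ^ k) % q x = u % q x) then 1 else 0 := by
    intro x
    rw [← Finset.card_filter]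
    unfold w
    refine Finset.card_le_card fun y hy => ?_
    simp only [Finset.mem_filter, Fintype.mem_piFinset, Finset.mem_range] at hy ⊢
    obtain ⟨hy1, hy2, hy3, hy4⟩ := hy
    obtain ⟨g1, g2, -⟩ := range_of_mem hk hq le_rfl hj y hy1 hy3 hy4 hLu huL hH1 hH2
    exact ⟨fun l => by have := hy1 l; omega, ⟨g1, g2, by omega, by omega⟩, hy2⟩
  refine (Finset.sum_le_sum fun x _ => h1 x).trans ?_
  rw [Finset.sum_comm, Finset.card_filter, Finset.sum_mul, Finset.mul_sum,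
    ← Finset.sum_add_distrib]
  refine Finset.sum_le_sum fun y _ => ?_
  rw [← Finset.card_filter]
  by_cases hb : ∃ l, y l < Pool.Agent.V5helper50.RC.sq L
  · rw [if_pos hb, one_mul]
    refine le_trans ?_ (Nat.le_add_left _ _)
    refine le_trans (Finset.card_le_card ?_)
      (fib' hINT (i := 1) n (u - ∑ l, y l ^ k) hk (hq.pos L) hj le_rfl)
    intro x hx
    rw [Finset.mem_filter] at hx ⊢
    obtain ⟨hx0, ⟨hx1, hx2, hx3, hx4⟩, hx5⟩ := hx
    have g3 : j * q x * Tk k x ≤ j * q L * Tk k x :=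
      Nat.mul_le_mul_right _ (Nat.mul_le_mul_left _ (hq.mono hx2))
    exact ⟨hx0, hs1.trans hx1, hx3, by omega⟩
  · rw [if_neg hb, zero_mul, add_zero]
    push Not at hb
    exact cnt_one hINT n hk hq hj t hL4 hsL y hb _

theorem t_MB2 : S_MB2 := by
  intro hINT hRES k K q j hk hj hq
  refine ⟨j ^ 2 * (4 * j + 1) * 3 ^ (j - 1), by positivity, fun ε hε => ?_⟩
  obtain ⟨D₀, hD₀⟩ := exists_nat_ge (4 * (4 ^ j * (4 * (j : ℝ) + 1) * (j : ℝ) ^ 2) / ε)
  obtain ⟨L₀, hL₀⟩ := large K (4 * k + (3 * j + 2) + D₀ + 3)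
  refine ⟨L₀ + 1, by omega, fun L u n hL hLu huL t ht => ?_⟩
  -- consequences of the choice of the threshold
  have hbase := hL₀ L (by omega)
  have hQ1 : 1 ≤ q L := hq.pos L
  have hQK : q L ≤ K + Nat.log 2 (L + 1) := hq.slow L
  have hbase2 : (4 * k + (3 * j + 2) + D₀ + 3) * q L ≤ Pool.Agent.V5helper50.RC.sq L :=
    (Nat.mul_le_mul_left _ hQK).trans hbase
  have hexp : (4 * k + (3 * j + 2) + D₀ + 3) * q L =
      4 * k * q L + (3 * j + 2) * q L + D₀ * q L + 3 * q L := by ring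
  have hH1 : 4 * k * q L ≤ Pool.Agent.V5helper50.RC.sq L := by omega
  have hj2 : 3 * j + 2 ≤ (3 * j + 2) * q L := Nat.le_mul_of_pos_right _ hQ1
  have hH2 : 3 * j + 2 ≤ Pool.Agent.V5helper50.RC.sq L := by omega
  have hH3 : D₀ * q L ≤ Pool.Agent.V5helper50.RC.sq L := by omega
  have hs3 : 3 ≤ Pool.Agent.V5helper50.RC.sq L := by omega
  have hs : Pool.Agent.V5helper50.RC.sq L = Nat.sqrt L + 1 := rfl
  have hLs : L < Pool.Agent.V5helper50.RC.sq L * Pool.Agent.V5helper50.RC.sq L := Nat.lt_succ_sqrt L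
  have hsq : Nat.sqrt L * Nat.sqrt L ≤ L := Nat.sqrt_le L
  have hL4 : L ≤ Pool.Agent.V5helper50.RC.sq L ^ 4 := by
    calc L ≤ Pool.Agent.V5helper50.RC.sq L * Pool.Agent.V5helper50.RC.sq L := hLs.le
      _ = Pool.Agent.V5helper50.RC.sq L ^ 2 := by ring
      _ ≤ Pool.Agent.V5helper50.RC.sq L ^ 4 := Nat.pow_le_pow_right (by omega) (by norm_num)
  have h4L : Pool.Agent.V5helper50.RC.sq L * Pool.Agent.V5helper50.RC.sq L ≤ 4 * L := by
    have : 1 ≤ Nat.sqrt L := by omega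
    rw [hs]
    nlinarith
  have hsL : Pool.Agent.V5helper50.RC.sq L ≤ L := by
    have : 2 ≤ Nat.sqrt L := by omega
    rw [hs]
    nlinarith
  have hQs : q (Pool.Agent.V5helper50.RC.sq L) ≤ L := by
    have h1 : q (Pool.Agent.V5helper50.RC.sq L) ≤ q L := hq.mono hsL
    have h2 : q L ≤ Pool.Agent.V5helper50.RC.sq L := by
      have : q L ≤ 3 * q L := by omega
      omega
    omega
  have hL1 : 1 ≤ L := by omega
  have hLr : (1 : ℝ) ≤ L := by exact_mod_cast hL1
  have hL0r : (0 : ℝ) < L := by linarith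
  have hqs0 : (0 : ℝ) < q (Pool.Agent.V5helper50.RC.sq L) := by exact_mod_cast hq.pos (Pool.Agent.V5helper50.RC.sq L)
  have hLQr : (q (Pool.Agent.V5helper50.RC.sq L) : ℝ) ≤ L := by exact_mod_cast hQs
  have hQr : (1 : ℝ) ≤ q L := by exact_mod_cast hQ1
  have hjr : (1 : ℝ) ≤ j := by exact_mod_cast hj
  have hsr : (1 : ℝ) ≤ Pool.Agent.V5helper50.RC.sq L := by exact_mod_cast (show 1 ≤ Pool.Agent.V5helper50.RC.sq L by omega)
  set κ : ℝ := j * L / (L : ℝ) ^ k with hκ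
  have hκ0 : 0 ≤ κ := by positivity
  -- each term
  have h1 : ∀ x, ∀ i ∈ Icc 1 j, (j.choose i : ℝ) * (w k q t j u i x : ℝ) / Tk k x ≤
      (j.choose i : ℝ) * (w k q t j u i x : ℝ) * κ := by
    intro x i hi
    obtain ⟨hi1, hi2⟩ := Finset.mem_Icc.1 hi
    have hT : (0 : ℝ) < Tk k x := by exact_mod_cast Tk_pos k x
    rcases Nat.eq_zero_or_pos (w k q t j u i x) with h0 | h0
    · rw [h0]; simp
    · obtain ⟨y, hy⟩ := Finset.card_pos.1 h0
      simp only [Finset.mem_filter, Fintype.mem_piFinset, Finset.mem_range] at hy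
      obtain ⟨hy1, hy2, hy3, hy4⟩ := hy
      obtain ⟨-, -, g3⟩ := range_of_mem hk hq hi1 hi2 y hy1 hy3 hy4 hLu huL hH1 hH2
      have g3r : (L : ℝ) ^ k ≤ j * L * Tk k x := by exact_mod_cast g3
      rw [div_eq_mul_inv]
      refine mul_le_mul_of_nonneg_left ?_ (by positivity)
      rw [hκ, inv_eq_one_div, div_le_div_iff₀ hT (by positivity)]
      linarith
  have h2 : ∑ x ∈ range n, m k q t j u x ≤
      ∑ i ∈ Icc 1 j, (j.choose i : ℝ) * ((∑ x ∈ range n, w k q t j u i x : ℕ) : ℝ) * κ := by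
    have : ∀ x, m k q t j u x ≤
        ∑ i ∈ Icc 1 j, (j.choose i : ℝ) * (w k q t j u i x : ℝ) * κ := by
      intro x
      unfold m
      rw [Finset.sum_div]
      exact Finset.sum_le_sum (h1 x)
    refine (Finset.sum_le_sum fun x _ => this x).trans (le_of_eq ?_)
    rw [Finset.sum_comm]
    refine Finset.sum_congr rfl fun i _ => ?_
    rw [Nat.cast_sum, ← Finset.sum_mul, ← Finset.mul_sum]
  -- the sums over `x`
  set A₁ : ℝ := (4 * j + 1) * (3 * L / q (Pool.Agent.V5helper50.RC.sq L)) ^ (j - 1) * W k (q (Pool.Agent.V5helper50.RC.sq L)) (q L) j u with hA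
  have hA0 : 0 ≤ A₁ := by positivity
  set D : ℝ := (4 * j + 1) * q L * (j * Pool.Agent.V5helper50.RC.sq L) * (2 * L) ^ j / (L : ℝ) ^ 2 with hD
  have hD0 : 0 ≤ D := by positivity
  have h3 : ∀ i ∈ Icc 1 j, ((∑ x ∈ range n, w k q t j u i x : ℕ) : ℝ) ≤
      (if i = 1 then A₁ else 0) + D := by
    intro i hi
    obtain ⟨hi1, hi2⟩ := Finset.mem_Icc.1 hi
    rcases eq_or_ne i 1 with rfl | hne
    · rw [if_pos rfl]
      have h4 := sum_w_one hINT n hk hq hj hLu huL hL4 hsL hH1 hH2 t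
      have h5 := (hRES (q (Pool.Agent.V5helper50.RC.sq L)) (j - 1) (fun y => G k (q (Pool.Agent.V5helper50.RC.sq L)) (q L) u y) (hq.pos _)).1 (L + 1)
      simp only [G_mod] at h5
      have h6 : ((∑ x ∈ range n, w k q t j u 1 x : ℕ) : ℝ) ≤
          (4 * j + 1) * ((((L + 1) / q (Pool.Agent.V5helper50.RC.sq L) : ℕ) + 1) ^ (j - 1) *
            W k (q (Pool.Agent.V5helper50.RC.sq L)) (q L) j u) +
          (((Fintype.piFinset (fun _ : Fin (j - 1) => range (L + 1))).filter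
            (fun y => ∃ l, y l < Pool.Agent.V5helper50.RC.sq L)).card : ℝ) * ((4 * j + 1) * q L) := by
        exact_mod_cast h4.trans (Nat.add_le_add_right (Nat.mul_le_mul_left _ h5) _)
      have h7 : (((L + 1) / q (Pool.Agent.V5helper50.RC.sq L) : ℕ) : ℝ) + 1 ≤ 3 * L / q (Pool.Agent.V5helper50.RC.sq L) := by
        have := Nat.cast_div_le (α := ℝ) (m := L + 1) (n := q (Pool.Agent.V5helper50.RC.sq L))
        refine (add_le_add_left this 1).trans ?_
        rw [div_add_one (by positivity), div_le_div_iff_of_pos_right (by positivity)]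
        push_cast
        linarith
      have h8 : ((((L + 1) / q (Pool.Agent.V5helper50.RC.sq L) : ℕ) : ℝ) + 1) ^ (j - 1) ≤ (3 * L / q (Pool.Agent.V5helper50.RC.sq L)) ^ (j - 1) :=
        pow_le_pow_left₀ (by positivity) h7 _
      have h9 : (4 * (j : ℝ) + 1) * (((((L + 1) / q (Pool.Agent.V5helper50.RC.sq L) : ℕ) : ℝ) + 1) ^ (j - 1) *
          W k (q (Pool.Agent.V5helper50.RC.sq L)) (q L) j u) ≤ A₁ := by
        rw [hA, mul_assoc]
        refine mul_le_mul_of_nonneg_left ?_ (by positivity)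
        exact mul_le_mul_of_nonneg_right h8 (Nat.cast_nonneg _)
      have h10 := bad (j - 1) (Pool.Agent.V5helper50.RC.sq L) (L + 1)
      set b := ((Fintype.piFinset (fun _ : Fin (j - 1) => range (L + 1))).filter
            (fun y => ∃ l, y l < Pool.Agent.V5helper50.RC.sq L)).card with hb
      have h11 : (b : ℝ) ≤ (j * Pool.Agent.V5helper50.RC.sq L) * (2 * L) ^ j / (L : ℝ) ^ 2 := by
        rw [le_div_iff₀ (by positivity)]
        have h12 : (b : ℝ) * (L + 1) ≤ (j - 1 : ℕ) * Pool.Agent.V5helper50.RC.sq L * ((L : ℝ) + 1) ^ (j - 1) := by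
          exact_mod_cast h10
        have h13 : ((j - 1 : ℕ) : ℝ) ≤ j := by exact_mod_cast Nat.sub_le j 1
        have h14 : ((L : ℝ) + 1) ^ (j - 1) ≤ (2 * L) ^ (j - 1) :=
          pow_le_pow_left₀ (by positivity) (by linarith) _
        calc (b : ℝ) * (L : ℝ) ^ 2 = (b * L) * L := by ring
          _ ≤ (b * (L + 1)) * L := by
              refine mul_le_mul_of_nonneg_right ?_ hL0r.le
              exact mul_le_mul_of_nonneg_left (by linarith) (Nat.cast_nonneg _)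
          _ ≤ ((j - 1 : ℕ) * Pool.Agent.V5helper50.RC.sq L * ((L : ℝ) + 1) ^ (j - 1)) * L :=
              mul_le_mul_of_nonneg_right h12 hL0r.le
          _ ≤ (j * Pool.Agent.V5helper50.RC.sq L * (2 * L) ^ (j - 1)) * (2 * L) := by
              refine mul_le_mul ?_ (by linarith) hL0r.le (by positivity)
              exact mul_le_mul (mul_le_mul_of_nonneg_right h13 (by positivity)) h14
                (by positivity) (by positivity)
          _ = (j * Pool.Agent.V5helper50.RC.sq L) * (2 * L) ^ j := by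
              obtain ⟨j', rfl⟩ : ∃ j', j = j' + 1 := ⟨j - 1, by omega⟩
              rw [Nat.add_sub_cancel]
              ring
      have h15 : (b : ℝ) * ((4 * j + 1) * q L) ≤ D := by
        calc (b : ℝ) * ((4 * j + 1) * q L) ≤
              ((j * Pool.Agent.V5helper50.RC.sq L) * (2 * L) ^ j / (L : ℝ) ^ 2) * ((4 * j + 1) * q L) :=
              mul_le_mul_of_nonneg_right h11 (by positivity)
          _ = D := by rw [hD]; ring
      linarith
    · rw [if_neg hne, zero_add]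
      have h4 := sum_w_le hINT n hk hq hi1 hi2 hLu huL hH1 hH2 t
      have hi3 : 2 ≤ i := by omega
      have h6 : ((∑ x ∈ range n, w k q t j u i x : ℕ) : ℝ) ≤
          ((L : ℝ) + 1) ^ (j - i) * ((4 * j + 1) * q L) := by
        exact_mod_cast h4
      refine h6.trans ?_
      rw [hD, le_div_iff₀ (by positivity)]
      have h7 : ((L : ℝ) + 1) ^ (j - i) ≤ (2 * L) ^ (j - i) :=
        pow_le_pow_left₀ (by positivity) (by linarith) _
      have h8 : (L : ℝ) ^ 2 ≤ (2 * L) ^ i := by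
        calc (L : ℝ) ^ 2 ≤ (2 * L) ^ 2 := pow_le_pow_left₀ (by positivity) (by linarith) _
          _ ≤ (2 * L) ^ i := pow_le_pow_right₀ (by linarith) hi3
      have h9 : ((L : ℝ) + 1) ^ (j - i) * (L : ℝ) ^ 2 ≤ (2 * L) ^ j := by
        calc ((L : ℝ) + 1) ^ (j - i) * (L : ℝ) ^ 2 ≤ (2 * L) ^ (j - i) * (2 * L) ^ i :=
              mul_le_mul h7 h8 (by positivity) (by positivity)
          _ = (2 * L) ^ j := by rw [← pow_add, Nat.sub_add_cancel hi2]
      have h10 : (1 : ℝ) ≤ j * Pool.Agent.V5helper50.RC.sq L := by nlinarith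
      calc ((L : ℝ) + 1) ^ (j - i) * ((4 * (j : ℝ) + 1) * q L) * (L : ℝ) ^ 2
          = ((4 * (j : ℝ) + 1) * (q L : ℝ)) * 1 * (((L : ℝ) + 1) ^ (j - i) * (L : ℝ) ^ 2) := by
            ring
        _ ≤ ((4 * (j : ℝ) + 1) * (q L : ℝ)) * (j * Pool.Agent.V5helper50.RC.sq L) * (2 * (L : ℝ)) ^ j := by
            refine mul_le_mul (mul_le_mul_of_nonneg_left h10 (by positivity)) h9
              (by positivity) (by positivity)
        _ = (4 * (j : ℝ) + 1) * (q L : ℝ) * (j * Pool.Agent.V5helper50.RC.sq L) * (2 * (L : ℝ)) ^ j := by ring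
  have h4 : ∑ i ∈ Icc 1 j, (j.choose i : ℝ) * ((∑ x ∈ range n, w k q t j u i x : ℕ) : ℝ) * κ ≤
      (j * A₁ + 2 ^ j * D) * κ := by
    rw [← Finset.sum_mul]
    refine mul_le_mul_of_nonneg_right ?_ hκ0
    calc ∑ i ∈ Icc 1 j, (j.choose i : ℝ) * ((∑ x ∈ range n, w k q t j u i x : ℕ) : ℝ)
        ≤ ∑ i ∈ Icc 1 j, (j.choose i : ℝ) * ((if i = 1 then A₁ else 0) + D) :=
          Finset.sum_le_sum fun i hi => mul_le_mul_of_nonneg_left (h3 i hi) (Nat.cast_nonneg _)
      _ = ∑ i ∈ Icc 1 j, (if i = 1 then (j.choose i : ℝ) * A₁ else 0) +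
          (∑ i ∈ Icc 1 j, (j.choose i : ℝ)) * D := by
          rw [Finset.sum_mul, ← Finset.sum_add_distrib]
          refine Finset.sum_congr rfl fun i _ => ?_
          split_ifs <;> ring
      _ ≤ j * A₁ + 2 ^ j * D := by
          refine add_le_add ?_ (mul_le_mul_of_nonneg_right ?_ hD0)
          · rw [Finset.sum_ite_eq' (Icc 1 j) 1 (fun i => (j.choose i : ℝ) * A₁),
              if_pos (Finset.mem_Icc.2 ⟨le_rfl, hj⟩), Nat.choose_one_right]
          · have := Nat.sum_range_choose j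
            calc ∑ i ∈ Icc 1 j, (j.choose i : ℝ) ≤ ∑ i ∈ range (j + 1), (j.choose i : ℝ) := by
                  refine Finset.sum_le_sum_of_subset_of_nonneg ?_ fun i _ _ => Nat.cast_nonneg _
                  intro i hi
                  rw [Finset.mem_range]
                  have := (Finset.mem_Icc.1 hi).2
                  omega
              _ = 2 ^ j := by exact_mod_cast this
  refine h2.trans (h4.trans ?_)
  rw [add_mul]
  refine add_le_add (le_of_eq ?_) ?_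
  · obtain ⟨j', rfl⟩ : ∃ j', j = j' + 1 := ⟨j - 1, by omega⟩
    rw [hA, hκ, Nat.add_sub_cancel, div_pow, mul_pow]
    field_simp
    ring
  · -- the error
    have h5 : (4 ^ j * (4 * (j : ℝ) + 1) * (j : ℝ) ^ 2) * (q L * Pool.Agent.V5helper50.RC.sq L) ≤ ε * L := by
      have h6 : (D₀ : ℝ) * q L ≤ Pool.Agent.V5helper50.RC.sq L := by exact_mod_cast hH3
      have h7 : (Pool.Agent.V5helper50.RC.sq L : ℝ) * Pool.Agent.V5helper50.RC.sq L ≤ 4 * L := by exact_mod_cast h4L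
      have h8 : 4 * (4 ^ j * (4 * (j : ℝ) + 1) * (j : ℝ) ^ 2) ≤ ε * D₀ := by
        rw [div_le_iff₀ hε] at hD₀
        linarith
      have h9 : 4 * (4 ^ j * (4 * (j : ℝ) + 1) * (j : ℝ) ^ 2) * (q L * Pool.Agent.V5helper50.RC.sq L) ≤
          ε * (4 * L) := by
        calc 4 * (4 ^ j * (4 * (j : ℝ) + 1) * (j : ℝ) ^ 2) * (q L * Pool.Agent.V5helper50.RC.sq L)
            ≤ (ε * D₀) * (q L * Pool.Agent.V5helper50.RC.sq L) := mul_le_mul_of_nonneg_right h8 (by positivity)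
          _ = ε * ((D₀ * q L) * Pool.Agent.V5helper50.RC.sq L) := by ring
          _ ≤ ε * (Pool.Agent.V5helper50.RC.sq L * Pool.Agent.V5helper50.RC.sq L) := by
              refine mul_le_mul_of_nonneg_left ?_ hε.le
              exact mul_le_mul_of_nonneg_right h6 (by positivity)
          _ ≤ ε * (4 * L) := mul_le_mul_of_nonneg_left h7 hε.le
      linarith
    have h6 : 2 ^ j * D * κ = ((4 ^ j * (4 * (j : ℝ) + 1) * (j : ℝ) ^ 2) * (q L * Pool.Agent.V5helper50.RC.sq L)) *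
        ((L : ℝ) ^ j / (L : ℝ) ^ k / L) := by
      rw [hD, hκ, mul_pow]
      have : (4 : ℝ) ^ j = 2 ^ j * 2 ^ j := by rw [← mul_pow]; norm_num
      rw [this]
      field_simp
    rw [h6]
    calc ((4 ^ j * (4 * (j : ℝ) + 1) * (j : ℝ) ^ 2) * (q L * Pool.Agent.V5helper50.RC.sq L)) *
        ((L : ℝ) ^ j / (L : ℝ) ^ k / L) ≤ (ε * L) * ((L : ℝ) ^ j / (L : ℝ) ^ k / L) :=
          mul_le_mul_of_nonneg_right h5 (by positivity)
      _ = ε * ((L : ℝ) ^ j / (L : ℝ) ^ k) := by field_simp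

end Pool.Agent.V5helper50.RC.MB2
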