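import Pool.Agent.V5helper50.RC.Stm

/-!
# Project RS, job NR: signs
-/

set_option autoImplicit false

open Finset MeasureTheory ProbabilityTheory

namespace Pool.Agent.V5helper50.RC.NR2

open Pool.Agent.V5helper50.RC

theorem t_NR2 : S_NR2 := by
  classical
  intro k q t d L u hk _ hu
  -- the solutions have coordinates at most `L`
  have hb : ∀ x : Fin d → ℕ, ∑ i, A k q t (x i) = u → ∀ i, x i < L + 1 := by
    intro x hx i
    have h1 : (x i) ^ k ≤ A k q t (x i) := Nat.le_add_right _ _
    have h2 : A k q t (x i) ≤ ∑ i, A k q t (x i) :=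
      single_le_sum (f := fun i => A k q t (x i)) (fun _ _ => Nat.zero_le _) (mem_univ i)
    have h3 : (x i) ^ k < (L + 1) ^ k := by omega
    exact lt_of_pow_lt_pow_left₀ k (Nat.zero_le _) h3
  set S : Finset (Fin d → ℕ) :=
    (Fintype.piFinset fun _ : Fin d => range (L + 1)).filter (fun x => ∑ i, A k q t (x i) = u) with hS
  set Z : Set (Fin d → ℤ) := {z : Fin d → ℤ | ∑ i, A k q t (z i).natAbs = u} with hZ
  have hmemS : ∀ x : Fin d → ℕ, x ∈ S ↔ ∑ i, A k q t (x i) = u := by
    intro x
    rw [hS, mem_filter, Fintype.mem_piFinset]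
    constructor
    · exact fun h => h.2
    · exact fun h => ⟨fun i => mem_range.mpr (hb x h i), h⟩
  let g : (Fin d → ℕ) × (Fin d → Bool) → (Fin d → ℤ) := fun p i =>
    if p.2 i = true then (p.1 i : ℤ) else -(p.1 i : ℤ)
  have hsub : Z ⊆ ((S ×ˢ (univ : Finset (Fin d → Bool))).image g : Finset (Fin d → ℤ)) := by
    intro z hz
    rw [mem_coe, mem_image]
    refine ⟨(fun i => (z i).natAbs, fun i => decide (0 ≤ z i)), ?_, ?_⟩
    · rw [mem_product]
      exact ⟨(hmemS _).mpr hz, mem_univ _⟩
    · funext i
      show (if decide (0 ≤ z i) = true then (((z i).natAbs : ℕ) : ℤ) else -(((z i).natAbs : ℕ) : ℤ)) = z i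
      by_cases h : 0 ≤ z i
      · rw [if_pos (by simpa using h)]
        omega
      · rw [if_neg (by simpa using h)]
        omega
  have hfin : Z.Finite := (Finset.finite_toSet _).subset hsub
  constructor
  · -- `R ≤ N`
    show S.card ≤ Z.ncard
    let f : (Fin d → ℕ) → (Fin d → ℤ) := fun x i => (x i : ℤ)
    have hf : Function.Injective f := by
      intro x y h
      funext i
      have := congrFun h i
      exact Int.ofNat_injective this
    rw [← card_image_of_injective S hf, ← Set.ncard_coe_finset]
    refine Set.ncard_le_ncard ?_ hfin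
    intro z hz
    rw [mem_coe, mem_image] at hz
    obtain ⟨x, hx, rfl⟩ := hz
    show ∑ i, A k q t ((x i : ℤ)).natAbs = u
    simpa using (hmemS x).mp hx
  · show Z.ncard ≤ 2 ^ d * S.card
    calc Z.ncard ≤ ((S ×ˢ (univ : Finset (Fin d → Bool))).image g : Finset (Fin d → ℤ)).card := by
          rw [← Set.ncard_coe_finset]
          exact Set.ncard_le_ncard hsub (Finset.finite_toSet _)
      _ ≤ (S ×ˢ (univ : Finset (Fin d → Bool))).card := card_image_le
      _ = 2 ^ d * S.card := by
          rw [card_product, card_univ, Fintype.card_fun, Fintype.card_bool, Fintype.card_fin, mul_comm]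

end Pool.Agent.V5helper50.RC.NR2
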