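import Pool.Agent.V5helper50.RC.Stm

set_option autoImplicit false

open Finset MeasureTheory ProbabilityTheory

namespace Pool.Agent.V5helper50.RC.REC2

open Pool.Agent.V5helper50.RC

/-- the generating function -/
noncomputable def gf (k : ℕ) (q t : ℕ → ℕ) (n : ℕ) : Polynomial ℕ :=
  ∑ x ∈ range n, (Polynomial.X : Polynomial ℕ) ^ (A k q t x)

lemma R_coeff (k : ℕ) (q t : ℕ → ℕ) (j n u : ℕ) : R k q t j n u = ((gf k q t n) ^ j).coeff u := by
  classical
  have h1 : (gf k q t n) ^ j = ∏ _i : Fin j, ∑ x ∈ range n, (Polynomial.X : Polynomial ℕ) ^ (A k q t x) := by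
    rw [prod_const, card_univ, Fintype.card_fin]
    rfl
  rw [h1, prod_univ_sum, Polynomial.finset_sum_coeff]
  unfold R
  rw [card_filter]
  refine sum_congr rfl fun x _ => ?_
  rw [prod_pow_eq_pow_sum, Polynomial.coeff_X_pow]
  by_cases h : ∑ i, A k q t (x i) = u
  · rw [if_pos h, if_pos h.symm]
  · rw [if_neg h, if_neg fun e => h e.symm]

lemma R_succ (k : ℕ) (q t : ℕ → ℕ) (j n u : ℕ) : R k q t j (n + 1) u =
    R k q t j n u + ∑ i ∈ Icc 1 j, j.choose i *
      (if i * A k q t n ≤ u then R k q t (j - i) n (u - i * A k q t n) else 0) := by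
  classical
  have h0 : gf k q t (n + 1) = (Polynomial.X : Polynomial ℕ) ^ (A k q t n) + gf k q t n := by
    unfold gf
    rw [sum_range_succ, add_comm]
  have h1 : R k q t j (n + 1) u = ∑ i ∈ range (j + 1), j.choose i *
      (if i * A k q t n ≤ u then R k q t (j - i) n (u - i * A k q t n) else 0) := by
    rw [R_coeff, h0, add_pow, Polynomial.finset_sum_coeff]
    refine sum_congr rfl fun i _ => ?_
    rw [← Polynomial.C_eq_natCast, Polynomial.coeff_mul_C, ← pow_mul, mul_comm (A k q t n) i,
      Polynomial.coeff_X_pow_mul', mul_comm]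
    simp only [R_coeff, Nat.cast_id]
  rw [h1, range_eq_Ico, sum_eq_sum_Ico_succ_bot (Nat.succ_pos j)]
  have h2 : Ico (0 + 1) (j + 1) = Icc 1 j := by
    ext x
    simp only [mem_Ico, mem_Icc]
    omega
  rw [h2]
  simp

theorem t_REC2 : S_REC2 := by
  classical
  intro k q t j n u hj
  induction n with
  | zero =>
    have : R k q t j 0 u = 0 := by
      unfold R
      rw [card_eq_zero, filter_eq_empty_iff]
      intro x hx
      rw [Fintype.mem_piFinset] at hx
      have := hx ⟨0, by omega⟩
      simp at this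
    rw [this]
    simp
  | succ n ih =>
    rw [sum_range_succ, ← ih, R_succ]
    unfold F
    push_cast
    congr 1

end Pool.Agent.V5helper50.RC.REC2
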