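import Pool.Agent.V5helper50.RS.Stm2
import Pool.Agent.V5helper16.CT.A8

/-!
# Project RC: random perturbations of the arithmetic `k`-spheres which keep ALL congruences (MP_927be3_nt)

THEOREM. Let `k ≥ 3`, `q_0 ∣ q_1 ∣ …` a chain of moduli which grows slowly (`Chain`), every `m` divides some `q_x`
(and a certain number depending on `k` divides `q_0`), `a_x = x ^ k + q_x θ_x`, `θ_x` independent uniform on
`{0, …, 4 k x ^ (k-1) - 1}`. Almost surely the order of magnitude `N_d(u) ≍ u ^ (d/k - 1)` (all large `u` with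
`N_d(u) ≠ 0`) holds in dimension `d` if and only if `d ≥ D(k)`. So `d_0(k) = D(k)` in this model.

The proof is the one of project RS (`Pool.Agent.V5helper50.RS.Stm`) with the following changes.
* For `L ^ k ≤ u < (L+1) ^ k` the coordinates in `[√L + 1, L]` have at most two moduli, `q⁻ = q (√L + 1)` and `q⁺ = q L`,
  `q⁺ = q⁻` or `q⁺ = p q⁻` (`Chain.two`); the tuples with a smaller coordinate are negligible.
* The conditional means are not bounded one by one, but their SUM is (`CHU2`).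
* Lower bound: the last exposed coordinate `b` is the SMALLEST one (so `q_b` divides the moduli of the others) (`CHL2`).

All constants may depend on `k, d, K, q` (the chain). Please tell helper50 at once if something is wrong.
-/

set_option autoImplicit false

open Finset MeasureTheory ProbabilityTheory

namespace Pool.Agent.V5helper50.RC

open Pool.Agent.V5helper50.RS (av pr Tk M Model S_LAW S_INT S_RES S_BC S_MOD)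

/-- the chains of moduli -/
structure Chain (K : ℕ) (q : ℕ → ℕ) : Prop where
  pos : ∀ x, 1 ≤ q x
  step : ∀ x, q (x + 1) = q x ∨ ∃ p, p.Prime ∧ q (x + 1) = p * q x
  slow : ∀ x, q x ≤ K + Nat.log 2 (x + 1)
  sparse : ∀ x y, q (x + 1) ≠ q x → x < y → y ≤ x ^ 4 → q y = q (x + 1)

theorem Chain.dvd {K : ℕ} {q : ℕ → ℕ} (h : Chain K q) {x y : ℕ} (hxy : x ≤ y) : q x ∣ q y := by
  induction y, hxy using Nat.le_induction with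
  | base => exact dvd_rfl
  | succ y _ ih =>
    refine ih.trans ?_
    rcases h.step y with h1 | ⟨p, _, h1⟩
    · rw [h1]
    · rw [h1]
      exact dvd_mul_left _ _

theorem Chain.mono {K : ℕ} {q : ℕ → ℕ} (h : Chain K q) {x y : ℕ} (hxy : x ≤ y) : q x ≤ q y :=
  Nat.le_of_dvd (h.pos y) (h.dvd hxy)

/-- at most two moduli in `[s, L]`, `L ≤ s ^ 4` -/
theorem Chain.two {K : ℕ} {q : ℕ → ℕ} (h : Chain K q) {s L : ℕ} (hsL : s ≤ L) (hL : L ≤ s ^ 4) :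
    (q L = q s ∨ ∃ p, p.Prime ∧ q L = p * q s) ∧ ∀ x, s ≤ x → x ≤ L → q x = q s ∨ q x = q L := by
  by_cases hc : ∃ x, s ≤ x ∧ x < L ∧ q (x + 1) ≠ q x
  · classical
    obtain ⟨h1, h2, h3⟩ := Nat.find_spec hc
    set x := Nat.find hc with hx
    have hmin : ∀ y, s ≤ y → y < x → q (y + 1) = q y := by
      intro y hy1 hy2
      by_contra hy3
      exact Nat.find_min hc hy2 ⟨hy1, by omega, hy3⟩
    have hlow : ∀ y, s ≤ y → y ≤ x → q y = q s := by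
      intro y hy1
      induction y, hy1 using Nat.le_induction with
      | base => intro _; rfl
      | succ y hy ih =>
        intro hy2
        rw [hmin y hy (by omega), ih (by omega)]
    have hup : ∀ y, x < y → y ≤ L → q y = q (x + 1) := fun y hy1 hy2 =>
      h.sparse x y h3 hy1 (hy2.trans (hL.trans (Nat.pow_le_pow_left h1 4)))
    have hqL : q L = q (x + 1) := hup L h2 le_rfl
    have hqx : q x = q s := hlow x h1 le_rfl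
    refine ⟨?_, fun y hy1 hy2 => ?_⟩
    · rcases h.step x with h4 | ⟨p, hp, h4⟩
      · exact absurd h4 h3
      · right
        exact ⟨p, hp, by rw [hqL, h4, hqx]⟩
    · rcases Nat.lt_or_ge x y with h5 | h5
      · right; rw [hup y h5 hy2, hqL]
      · left; exact hlow y hy1 h5
  · push Not at hc
    have hall : ∀ y, s ≤ y → y ≤ L → q y = q s := by
      intro y hy1
      induction y, hy1 using Nat.le_induction with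
      | base => intro _; rfl
      | succ y hy ih =>
        intro hy2
        rw [hc y hy (by omega), ih (by omega)]
    exact ⟨Or.inl (hall L hsL le_rfl), fun x hx1 hx2 => Or.inl (hall x hx1 hx2)⟩

/-- the lower end of the essential range -/
def sq (L : ℕ) : ℕ := Nat.sqrt L + 1

/-- the perturbed power -/
def A (k : ℕ) (q t : ℕ → ℕ) (x : ℕ) : ℕ := x ^ k + q x * t x

/-- the number of the `x ∈ [0, n) ^ j` with `∑ A (x_i) = u` -/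
def R (k : ℕ) (q t : ℕ → ℕ) (j n u : ℕ) : ℕ :=
  ((Fintype.piFinset fun _ : Fin j => range n).filter (fun x => ∑ i, A k q t (x i) = u)).card

/-- the tuples with largest coordinate `x` -/
noncomputable def F (k : ℕ) (q : ℕ → ℕ) (j u x : ℕ) (t : ℕ → ℕ) : ℝ :=
  ∑ i ∈ Icc 1 j, (j.choose i : ℝ) *
    (if i * A k q t x ≤ u then (R k q t (j - i) x (u - i * A k q t x) : ℝ) else 0)

/-- the number of the `y ∈ [0, x) ^ (j - i)` which are possible for the largest coordinate `x` -/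
def w (k : ℕ) (q t : ℕ → ℕ) (j u i x : ℕ) : ℕ :=
  ((Fintype.piFinset fun _ : Fin (j - i) => range x).filter (fun y =>
    (∑ l, A k q t (y l) + i * x ^ k) % q x = u % q x ∧ ∑ l, y l ^ k + i * x ^ k ≤ u ∧
    u < ∑ l, y l ^ k + i * x ^ k + j * q x * Tk k x)).card

/-- the bound for the conditional mean of `F`; it depends only on the `t y`, `y < x` -/
noncomputable def m (k : ℕ) (q t : ℕ → ℕ) (j u x : ℕ) : ℝ :=
  (∑ i ∈ Icc 1 j, (j.choose i : ℝ) * (w k q t j u i x : ℝ)) / Tk k x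

/-- the number of the `r < q'` with `r ^ k` congruent to `z` modulo `q'` -/
def S (k q' z : ℕ) : ℕ := ((range q').filter (fun r => r ^ k % q' = z % q')).card

/-- the number of the residues which are possible for the largest coordinate, for the modulus `q` and for `q'` -/
def G (k q q' u : ℕ) {j : ℕ} (y : Fin j → ℕ) : ℕ :=
  ((range q).filter (fun r => (∑ l, y l ^ k + r ^ k) % q = u % q)).card +
  ((range q').filter (fun z => (∑ l, y l ^ k + z) % q = u % q)).sup (fun z => S k q' z)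

/-- the sum of `G` -/
def W (k q q' j u : ℕ) : ℕ :=
  ∑ y ∈ Fintype.piFinset (fun _ : Fin (j - 1) => range q), G k q q' u y

/-- crude upper bound -/
noncomputable def Bd (k : ℕ) (C : ℝ) (j L : ℕ) : ℝ :=
  C * (1 + Real.log L) ^ (2 * j) * max 1 ((L : ℝ) ^ j / (L : ℝ) ^ k)

/-- the pairs `(z, x)`, `z ∈ (e, 2 e] ^ j`, `x ∈ (2 e, L]` with `∑ A (z_l) + A x = v` -/
def Rz (k : ℕ) (q t : ℕ → ℕ) (e L j v : ℕ) : ℕ :=
  (((Fintype.piFinset fun _ : Fin j => Ioc e (2 * e)) ×ˢ Ioc (2 * e) L).filter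
    (fun p => ∑ l, A k q t (p.1 l) + A k q t p.2 = v)).card

/-- the number of the points `z ∈ ℤ ^ d` with `∑ A |z_i| = u` -/
noncomputable def N (k : ℕ) (q t : ℕ → ℕ) (d u : ℕ) : ℕ :=
  {z : Fin d → ℤ | ∑ i, A k q t (z i).natAbs = u}.ncard

/-- the order of magnitude in dimension `d` -/
def Order (k : ℕ) (q t : ℕ → ℕ) (d : ℕ) : Prop :=
  ∃ c C : ℝ, 0 < c ∧ ∃ u₀ : ℕ, ∀ u ≥ u₀, N k q t d u ≠ 0 →
    c * (u : ℝ) ^ ((d : ℝ) / k - 1) ≤ N k q t d u ∧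
    (N k q t d u : ℝ) ≤ C * (u : ℝ) ^ ((d : ℝ) / k - 1)

/-! ## Probability -/

/-- **CHU2** (100 lines, like CHU). Let `c x t = (∑_v f x (update t x v)) / T x` (depends on the `t y`, `y < x`),
`g x t = min (f x t) B / B`. Claim: `av T n (exp (∑_{x<n} (g x - 2 c x / B))) ≤ 1` by induction on `n`: the average of
`exp (g n)` over the last coordinate is `≤ 1 + 2 (mean of g n) ≤ 1 + 2 c n / B ≤ exp (2 c n / B)` (`exp y ≤ 1 + 2 y`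
on `[0, 1]`). On the event the exponent is at least `(2 μ + lam B) / B - 2 μ / B = lam`. -/
def S_CHU2 : Prop := ∀ T : ℕ → ℕ, (∀ x, 0 < T x) → ∀ (n : ℕ) (f : ℕ → (ℕ → ℕ) → ℝ) (B lam μ : ℝ),
  0 < B → (∀ x < n, ∀ t, 0 ≤ f x t) →
  (∀ x < n, ∀ t t' : ℕ → ℕ, (∀ y ≤ x, t y = t' y) → f x t = f x t') →
  (∀ t : ℕ → ℕ, (∀ y, t y < T y) →
    ∑ x ∈ range n, (∑ v ∈ range (T x), f x (Function.update t x v)) / T x ≤ μ) →
  pr T n (fun t => (∀ x < n, f x t ≤ B) ∧ 2 * μ + lam * B ≤ ∑ x ∈ range n, f x t) ≤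
    Real.exp (-lam)

/-- **CHL2** (150 lines, like CHL). Here the exposed coordinates are those of `[n₁, n₂)`, and `f x t`, `G t` depend
(besides `t x`) only on the coordinates outside `[n₁, n₂)`. Useful lemma: averaging over a coordinate `b < n`
does not change the average, `av T n F = av T n (fun t => (∑ v ∈ range (T b), F (update t b v)) / T b)`
(induction on `n`, interchange of finite sums). Let `M x t = (∑_v f x (update t x v)) / T x` (depends only on the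
coordinates outside `[n₁, n₂)`). By induction on `i`, `n₁ ≤ i ≤ n₂`:
`av T n (fun t => 1[G t] ∏_{n₁ ≤ x < i} exp (-f x t / B + 5/8 M x t / B)) ≤ 1` (average over the coordinate `i`;
`exp (-y) ≤ 1 - (1 - 1/e) y` on `[0, 1]`, `1 - 1/e > 5/8`). -/
def S_CHL2 : Prop := ∀ T : ℕ → ℕ, (∀ x, 0 < T x) → ∀ (n₁ n₂ n : ℕ) (f : ℕ → (ℕ → ℕ) → ℝ)
  (G : (ℕ → ℕ) → Prop) (B m : ℝ), n₁ ≤ n₂ → n₂ ≤ n → 0 < B →
  (∀ x, n₁ ≤ x → x < n₂ → ∀ t, 0 ≤ f x t) →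
  (∀ x, n₁ ≤ x → x < n₂ → ∀ t t' : ℕ → ℕ, (∀ y < n, y < n₁ ∨ n₂ ≤ y → t y = t' y) → t x = t' x →
    f x t = f x t') →
  (∀ t t' : ℕ → ℕ, (∀ y < n, y < n₁ ∨ n₂ ≤ y → t y = t' y) → (G t ↔ G t')) →
  (∀ t : ℕ → ℕ, (∀ y, t y < T y) → G t →
    (∀ x, n₁ ≤ x → x < n₂ → f x t ≤ B) ∧
    m ≤ ∑ x ∈ Ico n₁ n₂, (∑ v ∈ range (T x), f x (Function.update t x v)) / T x) →
  pr T n (fun t => G t ∧ ∑ x ∈ Ico n₁ n₂, f x t < m / 2) ≤ Real.exp (-(m / (8 * B)))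

/-! ## Counting, upper bound -/

/-- **REC2** (70 lines, REC verbatim). -/
def S_REC2 : Prop := ∀ (k : ℕ) (q t : ℕ → ℕ) (j n u : ℕ), 1 ≤ j →
  (R k q t j n u : ℝ) = ∑ x ∈ range n, F k q j u x t

/-- **MA2** (100 lines, like MA). `∑ A (y_l) + i (x ^ k + q_x v) = u` gives the congruence modulo `q_x`, determines `v`,
and `∑ q_{y_l} t (y_l) + i q_x v < j q_x T_x`, as `q_y ≤ q_x` (`Chain.mono`) and `t y < T_y ≤ T_x` for `y < x`. -/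
def S_MA2 : Prop := ∀ (k K : ℕ) (q : ℕ → ℕ) (j u x : ℕ), 2 ≤ k → Chain K q → 1 ≤ j →
  ∀ t : ℕ → ℕ, (∀ y, t y < Tk k y) →
  (∑ v ∈ range (Tk k x), F k q j u x (Function.update t x v)) / Tk k x ≤ m k q t j u x

/-- **MB2** (250 lines, like MB). Let `L ≥ L₀`, `q⁻ = q (sq L)`, `q⁺ = q L ≤ K + log_2 (L + 1)`. A term `w i x ≠ 0` has
`x ≤ L` and `u < j x ^ k + j q_x T_x`, so `x ≥ 4 k q_x`, `x ^ k ≥ L ^ k / (2 j)`, `x ≥ sq L`,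
`T_x ≥ (2 k / j) L ^ k / L`; `q_x ∈ {q⁻, q⁺}` by `Chain.two`. So it is enough to bound the number of the pairs `(x, y)`.
`i = 1`, all `y_l ≥ sq L`: `q⁻` divides `q_{y_l}`, so `∑ A (y_l) ≡ ∑ y_l ^ k` modulo `q⁻`. For given `y` and for each of the
two values `Q ∈ {q⁻, q⁺}` of `q_x` INT (with this `Q`, `Y = u - ∑ y_l ^ k`) gives at most `4 j + 1` numbers `x` for each
residue `r < Q`; `r ^ k ≡ u - ∑ A (y_l)` modulo `Q`; so at most `(4 j + 1) G k q⁻ q⁺ u y` numbers `x`. `G` depends only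
on the residues of `y` modulo `q⁻`; RES gives `(4 j + 1) ((L+1)/q⁻ + 1) ^ (j-1) W` pairs, `(L+1)/q⁻ + 1 ≤ 3 L / q⁻`.
`i = 1`, some `y_l < sq L`: at most `j (sq L) (L+1) ^ (j-2)` tuples `y`, at most `(4 j + 1) q⁺` numbers `x` for each (INT with
`Q = q⁺`, as `q_x ≤ q⁺`): this is `≤ ε (L ^ j / L ^ k) T` for large `L`, as `sq L (K + log_2 (L + 1)) / L → 0`. (None if `j = 1`.)
`i ≥ 2`: at most `(L+1) ^ (j-2)` tuples, the same. -/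
def S_MB2 : Prop := S_INT → S_RES → ∀ (k K : ℕ) (q : ℕ → ℕ) (j : ℕ), 2 ≤ k → 1 ≤ j → Chain K q →
  ∃ C : ℝ, 0 < C ∧ ∀ ε : ℝ, 0 < ε → ∃ L₀ : ℕ, 1 ≤ L₀ ∧ ∀ L u n : ℕ, L₀ ≤ L → L ^ k ≤ u →
    u < (L + 1) ^ k → ∀ t : ℕ → ℕ, (∀ y, t y < Tk k y) →
    ∑ x ∈ range n, m k q t j u x ≤
      C * ((L : ℝ) ^ j / (L : ℝ) ^ k) * ((W k (q (sq L)) (q L) j u : ℝ) / (q (sq L) : ℝ) ^ (j - 1)) +
      ε * ((L : ℝ) ^ j / (L : ℝ) ^ k)

/-- **MC2** (150 lines, like MC). Crude form for all `u`. With `L' ^ k ≤ u < (L' + 1) ^ k`, `L' ≤ L + 1`, and `L'` large (in terms of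
`k, K, j`), as in MB2 the `x` which occur have `T_x ≥ c L' ^ (k-1)`, and for each `y ∈ [0, L' + 1) ^ (j-i)` there are at most
`(4 j + 1) q (L' + 1)` of them (INT with `Q = q (L' + 1)`, since `q_x ≤ Q`, summed over the residues). For small `L'` only
boundedly many `x` matter. -/
def S_MC2 : Prop := S_INT → ∀ (k K : ℕ) (q : ℕ → ℕ) (j : ℕ), 2 ≤ k → 1 ≤ j → Chain K q →
  ∃ C : ℝ, 0 < C ∧ ∀ L u n : ℕ, 1 ≤ L → u ≤ (L + 1) ^ k → ∀ t : ℕ → ℕ, (∀ y, t y < Tk k y) →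
    ∑ x ∈ range n, m k q t j u x ≤ C * (1 + Real.log L) * max 1 ((L : ℝ) ^ j / (L : ℝ) ^ k)

/-- **BND2** (280 lines, like BND). Induction on `j` as for BND with CHU2 (`μ = ` the bound of MC2). -/
def S_BND2 : Prop := S_CHU2 → S_REC2 → S_MA2 →
  (∀ (k K : ℕ) (q : ℕ → ℕ) (j : ℕ), 2 ≤ k → 1 ≤ j → Chain K q →
    ∃ C : ℝ, 0 < C ∧ ∀ L u n : ℕ, 1 ≤ L → u ≤ (L + 1) ^ k → ∀ t : ℕ → ℕ, (∀ y, t y < Tk k y) →
      ∑ x ∈ range n, m k q t j u x ≤ C * (1 + Real.log L) * max 1 ((L : ℝ) ^ j / (L : ℝ) ^ k)) →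
  ∀ (k K : ℕ) (q : ℕ → ℕ) (j : ℕ), 2 ≤ k → Chain K q → ∃ C : ℝ, 1 ≤ C ∧ ∀ L : ℕ, 1 ≤ L →
    pr (Tk k) (L + 1) (fun t => ∃ i ≤ j, ∃ n ≤ L + 1, ∃ u ≤ (L + 1) ^ k,
      Bd k C i L < (R k q t i n u : ℝ)) ≤ C / (L : ℝ) ^ 2

/-- **UP2** (170 lines, like UP). CHU2 with `μ` the bound of MB2 for `ε / 8` (it depends on `u`), `B = 2 ^ d Bd C₁ (d-1) L`,
`lam = (k + 3) log (L + 1)`; `lam B ≤ (ε / 2) L ^ d / L ^ k` for large `L`, as `d - 1 ≥ k`. Take `2 C` (and a little more for the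
strict inequality) as the constant. -/
def S_UP2 : Prop := S_CHU2 → S_REC2 → S_MA2 →
  (∀ (k K : ℕ) (q : ℕ → ℕ) (j : ℕ), 2 ≤ k → 1 ≤ j → Chain K q →
    ∃ C : ℝ, 0 < C ∧ ∀ ε : ℝ, 0 < ε → ∃ L₀ : ℕ, 1 ≤ L₀ ∧ ∀ L u n : ℕ, L₀ ≤ L → L ^ k ≤ u →
      u < (L + 1) ^ k → ∀ t : ℕ → ℕ, (∀ y, t y < Tk k y) →
      ∑ x ∈ range n, m k q t j u x ≤
        C * ((L : ℝ) ^ j / (L : ℝ) ^ k) *
          ((W k (q (sq L)) (q L) j u : ℝ) / (q (sq L) : ℝ) ^ (j - 1)) +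
        ε * ((L : ℝ) ^ j / (L : ℝ) ^ k)) →
  (∀ (k K : ℕ) (q : ℕ → ℕ) (j : ℕ), 2 ≤ k → Chain K q → ∃ C : ℝ, 1 ≤ C ∧ ∀ L : ℕ, 1 ≤ L →
    pr (Tk k) (L + 1) (fun t => ∃ i ≤ j, ∃ n ≤ L + 1, ∃ u ≤ (L + 1) ^ k,
      Bd k C i L < (R k q t i n u : ℝ)) ≤ C / (L : ℝ) ^ 2) →
  ∀ (k K : ℕ) (q : ℕ → ℕ) (d : ℕ), 2 ≤ k → k + 1 ≤ d → Chain K q → ∃ C : ℝ, 0 < C ∧
    ∀ ε : ℝ, 0 < ε → ∃ (C' : ℝ) (L₀ : ℕ), 1 ≤ L₀ ∧ ∀ L : ℕ, L₀ ≤ L →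
      pr (Tk k) (L + 1) (fun t => ∃ u, L ^ k ≤ u ∧ u < (L + 1) ^ k ∧
        C * ((L : ℝ) ^ d / (L : ℝ) ^ k) *
            ((W k (q (sq L)) (q L) d u : ℝ) / (q (sq L) : ℝ) ^ (d - 1)) +
          ε * ((L : ℝ) ^ d / (L : ℝ) ^ k) < (R k q t d (L + 1) u : ℝ)) ≤ C' / (L : ℝ) ^ 2

/-! ## Counting, lower bound -/

/-- **LOWM2** (280 lines, like LOWM). Let `e = L / (16 d)`. Choose `β = L / (64 d)` or `β = L / (256 d)` such that `q` is constant on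
`(β, 2 β]` (`Chain.two` on `[L / (256 d), L]`: at most one jump, and the two ranges are disjoint), `n₁ = β + 1`,
`n₂ = 2 β + 1`, `Q = q n₁`. For `z ∈ (e, 2 e] ^ (d-2)` let `Y = u - ∑ z_l ^ k ≥ L ^ k / 2` and
`I (z) = {x | (3 β / 2) ^ k ≤ Y - x ^ k ≤ (13 β / 8) ^ k}` (say `3 ^ k β ^ k ≤ 2 ^ k (Y - x ^ k)` etc.): `x ∈ (2 e, L]`, and
the length of the interval `I (z)` is at least `((13 β / 8) ^ k - (3 β / 2) ^ k) / (k L ^ (k-1)) ≥ c L`, so that it has at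
least `c L / Q` elements in every residue class modulo `Q` (`Q ≤ K + log_2 (L + 1)` is small). For `x ∈ I (z)` and every `t`
`Z = u - ∑ A (z_l) - A x` is in `[(11 β / 8) ^ k, (13 β / 8) ^ k]` (the perturbations are at most
`d q_L 4 k L ^ (k-1)`, small). `Z ≡ u - ∑ z_l ^ k - x ^ k` modulo `Q`, as `Q` divides `q_{z_l}`, `q_x`. For each residue `r < Q`
with `r ^ k ≡ Z` let `b` be the number of `(b* - Q, b*]`, `b* = ⌊Z ^ (1/k)⌋`, with `b % Q = r`: `β < b ≤ 2 β`, `q_b = Q`,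
`b ^ k ≤ Z < (b* + 1) ^ k ≤ (b + Q) ^ k ≤ b ^ k + 4 k Q b ^ (k-1) = b ^ k + Q T_b`, so `v = (Z - b ^ k) / Q < T_b`. So the sum
over `b`, `v` is at least `∑_z ∑_{x ∈ I (z)} #{r < Q | ∑ z_l ^ k + x ^ k + r ^ k ≡ u}
≥ (c L / Q) (e / Q) ^ (d-2) M k Q d u` (RES for `z`; the residue of `x`), and `T_b ≤ 4 k L ^ (k-1)`. -/
def S_LOWM2 : Prop := S_RES → ∀ (k K : ℕ) (q : ℕ → ℕ) (d : ℕ), 2 ≤ k → k + 1 ≤ d → Chain K q →
  ∃ c : ℝ, 0 < c ∧ ∃ L₀ : ℕ, 1 ≤ L₀ ∧ ∀ L : ℕ, L₀ ≤ L → ∃ n₁ n₂ : ℕ, n₁ ≤ n₂ ∧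
    n₂ ≤ L / (16 * d) + 1 ∧ ∀ u : ℕ, L ^ k ≤ u → u < (L + 1) ^ k →
    ∀ t : ℕ → ℕ, (∀ y, t y < Tk k y) →
      c * ((L : ℝ) ^ d / (L : ℝ) ^ k) * ((M k (q n₁) d u : ℝ) / (q n₁ : ℝ) ^ (d - 1)) ≤
        ∑ b ∈ Ico n₁ n₂, (∑ v ∈ range (Tk k b),
          (if b ^ k + q b * v ≤ u then
            (Rz k q t (L / (16 * d)) L (d - 2) (u - (b ^ k + q b * v)) : ℝ) else 0)) / Tk k b

/-- **LOW2** (220 lines, like LOW). `f b t = if A b ≤ u then Rz … (d-2) (u - A b) else 0` for `b ∈ [n₁, n₂)`, `n = L + 1`;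
`R d (L+1) u ≥ ∑_b f b t` (the tuples `(z, x, b)`). `G t`: `Rz … v ≤ B := Bd C₁ (d-1) L` for all `v ≤ (L+1) ^ k` (depends only on
coordinates in `(e, L]`, outside `[n₁, n₂)`); `Rz … v ≤ R (d-1) (L+1) v`. Means: LOWM2. With the assumption `κ`:
`m = c κ (L ^ d / L ^ k)`, `m / (8 B) ≥ c' L / (1 + log L) ^ (2 (d - 1))`. -/
def S_LOW2 : Prop := S_CHL2 →
  (∀ (k K : ℕ) (q : ℕ → ℕ) (d : ℕ), 2 ≤ k → k + 1 ≤ d → Chain K q →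
    ∃ c : ℝ, 0 < c ∧ ∃ L₀ : ℕ, 1 ≤ L₀ ∧ ∀ L : ℕ, L₀ ≤ L → ∃ n₁ n₂ : ℕ, n₁ ≤ n₂ ∧
      n₂ ≤ L / (16 * d) + 1 ∧ ∀ u : ℕ, L ^ k ≤ u → u < (L + 1) ^ k →
      ∀ t : ℕ → ℕ, (∀ y, t y < Tk k y) →
        c * ((L : ℝ) ^ d / (L : ℝ) ^ k) * ((M k (q n₁) d u : ℝ) / (q n₁ : ℝ) ^ (d - 1)) ≤
          ∑ b ∈ Ico n₁ n₂, (∑ v ∈ range (Tk k b),
            (if b ^ k + q b * v ≤ u then
              (Rz k q t (L / (16 * d)) L (d - 2) (u - (b ^ k + q b * v)) : ℝ) else 0)) / Tk k b) →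
  (∀ (k K : ℕ) (q : ℕ → ℕ) (j : ℕ), 2 ≤ k → Chain K q → ∃ C : ℝ, 1 ≤ C ∧ ∀ L : ℕ, 1 ≤ L →
    pr (Tk k) (L + 1) (fun t => ∃ i ≤ j, ∃ n ≤ L + 1, ∃ u ≤ (L + 1) ^ k,
      Bd k C i L < (R k q t i n u : ℝ)) ≤ C / (L : ℝ) ^ 2) →
  ∀ (k K : ℕ) (q : ℕ → ℕ) (d : ℕ), 2 ≤ k → k + 1 ≤ d → Chain K q → ∀ κ : ℝ, 0 < κ →
    ∃ c : ℝ, 0 < c ∧ ∃ (C' : ℝ) (L₀ : ℕ), 1 ≤ L₀ ∧ ∀ L : ℕ, L₀ ≤ L →
      pr (Tk k) (L + 1) (fun t => ∃ u, L ^ k ≤ u ∧ u < (L + 1) ^ k ∧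
        (∀ x ≤ L, κ * (q x : ℝ) ^ (d - 1) ≤ M k (q x) d u) ∧
        (R k q t d (L + 1) u : ℝ) < c * ((L : ℝ) ^ d / (L : ℝ) ^ k)) ≤ C' / (L : ℝ) ^ 2

/-- **NR2** (75 lines, NR verbatim). -/
def S_NR2 : Prop := ∀ (k : ℕ) (q t : ℕ → ℕ) (d L u : ℕ), 1 ≤ k → L ^ k ≤ u → u < (L + 1) ^ k →
  R k q t d (L + 1) u ≤ N k q t d u ∧ N k q t d u ≤ 2 ^ d * R k q t d (L + 1) u

/-! ## Local statements (with `Pool.Agent.V5helper16.CT`) -/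

/-- **LOCU** (250 lines). With `q = p ^ v q₁`, `p ∤ q₁` (for `q' = q` any `p`) the numbers factorize by the Chinese remainder theorem:
`W q q' ≤ 2 M k q₁ d u · (local sum at p)`; `M k q₁ d u ≤ C q₁ ^ (d-1)` for `d ≥ k + 2` (upper half of `order_of_local`, from
`Bd_large`, `P_le_crude`, `N_le`, `all_moduli`: it does not need `LocalBound`). Local sum at `p`, for `v ≥ 0`: for `z ≢ 0` modulo `p ^ (v+1)`,
`p ^ (k a) ∥ z`, one has `S k (p ^ (v+1)) z ≤ 2 k p ^ ((k-1) a)`; and `S k (p ^ (v+1)) 0 ≤ p ^ (v+1-⌈(v+1)/k⌉) ≤ p ^ v`. The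
number of the `y` modulo `p ^ v`, `y ∈ ℤ ^ (d-1)`, with `p ^ s ∣ u - ∑ y_l ^ k` (`s ≤ v`) is at most `C p ^ (v (d-1)) p ^ (-s)`,
as `d - 1 ≥ k + 1`. So the local sum is at most `∑_a 2 k p ^ ((k-1) a) C p ^ (v (d-1) - k a) + p ^ v C p ^ (v (d-1) - v)
≤ C' p ^ (v (d-1))`. -/
def S_LOCU : Prop := ∀ k d : ℕ, 3 ≤ k → k + 2 ≤ d → ∃ C : ℝ, 0 < C ∧ ∀ q q' u : ℕ, 1 ≤ q →
  (q' = q ∨ ∃ p, p.Prime ∧ q' = p * q) → (W k q q' d u : ℝ) ≤ C * (q : ℝ) ^ (d - 1)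

/-- **LOCB** (120 lines). `W k q q d u = M + ∑ sup = 2 M k q d u` and `M k q d u = N(q, k, d, 0)` for `q ∣ u`; by the
Chinese remainder theorem `N(q, 0) ≤ C q₁ ^ (d-1) N(p ^ v, 0)` (`d ≥ k + 2`), and `N(p ^ v, 0) / p ^ (v (d-1)) → 0` for the prime `p` without
primitive solutions, as in the second half of `local_of_order` (`Z_rec_zero`). -/
def S_LOCB : Prop := ∀ k d : ℕ, 3 ≤ k → k + 2 ≤ d → ¬ Pool.Agent.V5helper16.CT.LocalBound k d →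
  ∀ ε : ℝ, 0 < ε → ∃ Q₀ : ℕ, 1 ≤ Q₀ ∧ ∀ q u : ℕ, 1 ≤ q → Q₀ ∣ q → q ∣ u →
    (W k q q d u : ℝ) ≤ ε * (q : ℝ) ^ (d - 1)

/-- **LIFT** (200 lines). There is `q₀ = ∏_{p ≤ p₀} p ^ (4 v_p(k) + 4)` or so. By the Chinese remainder theorem it is enough to lift modulo the
powers of one prime `p`. For `p > p₀` (where `p₀` is for the dimension `d₁ = D(k)`, the least `d` with `LocalBound k d`; for `d > d₁` fix
`d - d₁` of the coordinates) every residue modulo `p ^ e` is represented (lower bound in `Bd_large`). For `p ≤ p₀`: a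
representation modulo `p ^ e`, `e ≥ 2 v + 1`, with a coordinate prime to `p` lifts to all powers (Hensel, `hensel_gen`); if
there is none, `u ≡ 0` modulo `p ^ (min k e)`, and `0` modulo `p ^ (2 v + 1)` (or `p ^ k`, `k ≥ v + 2`) has a primitive representation
(`iso_all`), which lifts to a representation of every `u ≡ 0` modulo `p ^ (2 v + 1)`; divide by `p ^ k` if `k < 2 v + 1` (this happens only for
`p = 2`, `k = 4`; all the `k`-th powers are `0, 1` modulo `2 ^ (v+2)`). Or use `lower_rec`. -/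
def S_LIFT : Prop := ∀ k : ℕ, 3 ≤ k → ∃ q₀ : ℕ, 1 ≤ q₀ ∧ ∀ d : ℕ,
  Pool.Agent.V5helper16.CT.LocalBound k d → ∀ q q' u : ℕ, 1 ≤ q' → q₀ ∣ q → q ∣ q' →
    (∃ x : Fin d → ℕ, (∑ i, x i ^ k) % q = u % q) → ∃ x : Fin d → ℕ, (∑ i, x i ^ k) % q' = u % q'

/-- **LOCL** (60 lines). From `order_of_local`, in terms of `M` (see `Pool.Agent.V5helper47.RS.CNV`). -/
def S_LOCL : Prop := ∀ k d : ℕ, 3 ≤ k → Pool.Agent.V5helper16.CT.LocalBound k d →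
  ∃ κ : ℝ, 0 < κ ∧ ∀ q u : ℕ, 1 ≤ q → (∃ x : Fin d → ℕ, (∑ i, x i ^ k) % q = u % q) →
    κ * (q : ℝ) ^ (d - 1) ≤ M k q d u

/-! ## Final steps -/

/-- **EXC** (120 lines). Existence of a chain. Let `s : ℕ → ℕ` take values `1` or a prime, every prime infinitely often (for instance
`s i = (Nat.unpair i).1` if this is a prime, `1` otherwise), `c_i = q₀ ∏_{l < i} s l`, `X_0 = 0` and `X_{i+1} ≥ X_i ^ 4 + 1`,
`X_{i+1} ≥ 2 ^ (c_{i+1})`; `q x = c_i` for `X_i ≤ x < X_{i+1}`, `K = q₀`. -/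
def S_EXC : Prop := ∀ q₀ : ℕ, 1 ≤ q₀ → ∃ (K : ℕ) (q : ℕ → ℕ), Chain K q ∧ q₀ ∣ q 0 ∧
  ∀ m : ℕ, 1 ≤ m → ∃ x, m ∣ q x

/-- **LOWD** (200 lines, like `Pool.Agent.V5helper50.RS.Low1`: `avg`, `fails_low`). For `d < k` the numbers `u = A x` have `N u ≥ 1` (the point
`(x, 0, …, 0)`, `A 0 = 0`) and `u ^ (d/k - 1) → 0`. For `d = k, k + 1`: let `W₀` be a modulus with `M(W₀, 0) ≥ B W₀ ^ (d-1)`
(`exists_primes`, `M_prod`, `density` in `TH854.KS`, as in `unb`, which is for `d = k`), `W₀ ∣ q x` for `x ≥ x₀`. The tuples `y`,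
`y_l ∈ [x₀ W₀, X)`, `X` a multiple of `W₀`, with `W₀ ∣ ∑ y_l ^ k`: at least `(X / W₀ - x₀) ^ d M(W₀, 0)`; then `W₀ ∣ ∑ A (y_l) ≤ 2 d X ^ k`
(`4 k q_X ≤ X` for large `X`, by `Chain.slow`); `N u ≤ C u ^ (d/k - 1) ≤ C (2 d) X ^ (d-k)` for `u ≥ u₀`. -/
def S_LOWD : Prop := ∀ (k K : ℕ) (q : ℕ → ℕ) (d : ℕ), 3 ≤ k → 1 ≤ d → d ≤ k + 1 → Chain K q →
  (∀ m : ℕ, 1 ≤ m → ∃ x, m ∣ q x) → ∀ t : ℕ → ℕ, (∀ y, t y < Tk k y) → ¬ Order k q t d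

/-- **ASMA** (150 lines, like ASM). `BC` for the events of UP2 (`ε = 1`) and LOW2 (they depend only on the coordinates `< L + 1`);
`W / q⁻ ^ (d-1) ≤ C` by LOCU (`Chain.two` with `s = sq L`, `L ≤ (sq L) ^ 4`, gives `q⁺ = q⁻` or `p q⁻`). If `N u ≠ 0`, then `u` is a sum of `d`
`k`-th powers modulo `q 0` (`q 0 ∣ q x`), so modulo every `q x` (LIFT), so `M k (q x) d u ≥ κ (q x) ^ (d-1)` (LOCL). NR2;
`L ^ d / L ^ k` and `u ^ (d/k - 1)` agree up to `2 ^ d`. -/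
def S_ASMA : Prop := S_LAW → S_BC → S_NR2 → ∀ (k K : ℕ) (q : ℕ → ℕ) (d q₀ : ℕ), 3 ≤ k → k + 2 ≤ d →
  Chain K q → q₀ ∣ q 0 →
  (∃ C : ℝ, 0 < C ∧ ∀ q q' u : ℕ, 1 ≤ q →
    (q' = q ∨ ∃ p, p.Prime ∧ q' = p * q) → (W k q q' d u : ℝ) ≤ C * (q : ℝ) ^ (d - 1)) →
  (∀ q q' u : ℕ, 1 ≤ q' → q₀ ∣ q → q ∣ q' →
    (∃ x : Fin d → ℕ, (∑ i, x i ^ k) % q = u % q) → ∃ x : Fin d → ℕ, (∑ i, x i ^ k) % q' = u % q') →
  (∃ κ : ℝ, 0 < κ ∧ ∀ q u : ℕ, 1 ≤ q → (∃ x : Fin d → ℕ, (∑ i, x i ^ k) % q = u % q) →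
    κ * (q : ℝ) ^ (d - 1) ≤ M k q d u) →
  (∃ C : ℝ, 0 < C ∧ ∀ ε : ℝ, 0 < ε → ∃ (C' : ℝ) (L₀ : ℕ), 1 ≤ L₀ ∧ ∀ L : ℕ, L₀ ≤ L →
      pr (Tk k) (L + 1) (fun t => ∃ u, L ^ k ≤ u ∧ u < (L + 1) ^ k ∧
        C * ((L : ℝ) ^ d / (L : ℝ) ^ k) *
            ((W k (q (sq L)) (q L) d u : ℝ) / (q (sq L) : ℝ) ^ (d - 1)) +
          ε * ((L : ℝ) ^ d / (L : ℝ) ^ k) < (R k q t d (L + 1) u : ℝ)) ≤ C' / (L : ℝ) ^ 2) →
  (∀ κ : ℝ, 0 < κ → ∃ c : ℝ, 0 < c ∧ ∃ (C' : ℝ) (L₀ : ℕ), 1 ≤ L₀ ∧ ∀ L : ℕ, L₀ ≤ L →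
      pr (Tk k) (L + 1) (fun t => ∃ u, L ^ k ≤ u ∧ u < (L + 1) ^ k ∧
        (∀ x ≤ L, κ * (q x : ℝ) ^ (d - 1) ≤ M k (q x) d u) ∧
        (R k q t d (L + 1) u : ℝ) < c * ((L : ℝ) ^ d / (L : ℝ) ^ k)) ≤ C' / (L : ℝ) ^ 2) →
  ∀ (Ω : Type) [MeasurableSpace Ω] (μ : Measure Ω) (θ : ℕ → Ω → ℕ), Model k μ θ →
    ∀ᵐ ω ∂μ, Order k q (fun x => θ x ω) d

/-- **ASMB** (170 lines). Let `ω` be such that for all `ε = 1/i` the upper bound of UP2 holds for `L ≥ L₁(ε)` (BC for each `i`, `ae_all_iff`). Given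
`c > 0` and `u₀`: choose `ε` small, `Q₀` (LOCB hypothesis) with `W ≤ ε q ^ (d-1)` for `Q₀ ∣ q ∣ u`, and a large jump `y` of the chain
(`q (y+1) ≠ q y`; there are arbitrarily large ones, as otherwise `q` would be bounded) with `Q₀ ∣ q (y+1) =: Q`; `q = Q` on `(y, y ^ 4]`. Let `x` be
the multiple of `Q` in `[y ^ 3, y ^ 3 + Q)` and `u = A x = x ^ k + Q θ_x`: `Q ∣ u`, `N u ≥ 1` (the point `(x, 0, …, 0)`, `A 0 = 0` since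
`T_0 = 1`), and `L ^ k ≤ u < (L+1) ^ k` has `x ≤ L ≤ 2 x ≤ y ^ 4` and `sq L > y`. So `N u ≤ 2 ^ d R ≤ 2 ^ d (C ε + ε) L ^ d / L ^ k`,
less than `c u ^ (d/k - 1)`. -/
def S_ASMB : Prop := S_LAW → S_BC → S_NR2 → ∀ (k K : ℕ) (q : ℕ → ℕ) (d : ℕ), 3 ≤ k → k + 2 ≤ d →
  Chain K q → (∀ m : ℕ, 1 ≤ m → ∃ x, m ∣ q x) →
  (∀ ε : ℝ, 0 < ε → ∃ Q₀ : ℕ, 1 ≤ Q₀ ∧ ∀ q u : ℕ, 1 ≤ q → Q₀ ∣ q → q ∣ u →
    (W k q q d u : ℝ) ≤ ε * (q : ℝ) ^ (d - 1)) →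
  (∃ C : ℝ, 0 < C ∧ ∀ ε : ℝ, 0 < ε → ∃ (C' : ℝ) (L₀ : ℕ), 1 ≤ L₀ ∧ ∀ L : ℕ, L₀ ≤ L →
      pr (Tk k) (L + 1) (fun t => ∃ u, L ^ k ≤ u ∧ u < (L + 1) ^ k ∧
        C * ((L : ℝ) ^ d / (L : ℝ) ^ k) *
            ((W k (q (sq L)) (q L) d u : ℝ) / (q (sq L) : ℝ) ^ (d - 1)) +
          ε * ((L : ℝ) ^ d / (L : ℝ) ^ k) < (R k q t d (L + 1) u : ℝ)) ≤ C' / (L : ℝ) ^ 2) →
  ∀ (Ω : Type) [MeasurableSpace Ω] (μ : Measure Ω) (θ : ℕ → Ω → ℕ), Model k μ θ →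
    ∀ᵐ ω ∂μ, ¬ Order k q (fun x => θ x ω) d

end Pool.Agent.V5helper50.RC
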